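import Mathlib
import Pool.Agent.LibKronecker.Kronecker

/-!
Zeros of twisted partial sums of Dirichlet series to the right of the line of real part one.
-/

open Finset Filter Topology Complex MeasureTheory Pool.Agent.LibKronecker

namespace Pool.Agent.LibTuran

/-- The completely multiplicative function with prescribed values at the primes. -/
noncomputable def cmul (z : ℕ → ℂ) : ℕ →*₀ ℂ where
  toFun n := if n = 0 then 0 else n.factorization.prod fun p k => z p ^ k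
  map_zero' := by simp
  map_one' := by simp
  map_mul' m n := by
    rcases eq_or_ne m 0 with rfl | hm
    · simp
    rcases eq_or_ne n 0 with rfl | hn
    · simp
    simp only [mul_eq_zero, hm, hn, or_self, if_false]
    rw [Nat.factorization_mul hm hn, Finsupp.prod_add_index']
    · intro p; simp
    · intro p a b; exact pow_add _ _ _

theorem cmul_apply {z : ℕ → ℂ} {n : ℕ} (hn : n ≠ 0) :
    cmul z n = n.factorization.prod fun p k => z p ^ k := by
  show (if n = 0 then 0 else n.factorization.prod fun p k => z p ^ k) = _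
  rw [if_neg hn]

theorem cmul_prime {z : ℕ → ℂ} {p : ℕ} (hp : p.Prime) : cmul z p = z p := by
  rw [cmul_apply hp.ne_zero, hp.factorization]
  simp

theorem cmul_norm_le {z : ℕ → ℂ} (hz : ∀ p, p.Prime → ‖z p‖ ≤ 1) (n : ℕ) : ‖cmul z n‖ ≤ 1 := by
  rcases eq_or_ne n 0 with rfl | hn
  · simp
  rw [cmul_apply hn, Finsupp.prod, norm_prod]
  refine Finset.prod_le_one (fun _ _ => norm_nonneg _) fun p hp => ?_
  rw [norm_pow]
  exact pow_le_one₀ (norm_nonneg _) (hz p (Nat.prime_of_mem_primeFactors hp))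

theorem cmul_congr {z z' : ℕ → ℂ} {n : ℕ} (h : ∀ p, p.Prime → p ∣ n → z p = z' p) :
    cmul z n = cmul z' n := by
  rcases eq_or_ne n 0 with rfl | hn
  · simp
  rw [cmul_apply hn, cmul_apply hn]
  refine Finset.prod_congr rfl fun p hp => ?_
  show z p ^ _ = z' p ^ _
  rw [h p (Nat.prime_of_mem_primeFactors hp) (Nat.dvd_of_mem_primeFactors hp)]

/-- summatory function -/
noncomputable def sumz (z : ℕ → ℂ) (x : ℝ) : ℂ := ∑ n ∈ Icc 1 ⌊x⌋₊, cmul z n

theorem sumz_split (z : ℕ → ℂ) {p : ℕ} (hp : p.Prime) (x : ℝ) :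
    sumz z x = ∑ n ∈ (Icc 1 ⌊x⌋₊).filter (fun n => ¬ p ∣ n), cmul z n + z p * sumz z (x / p) := by
  unfold sumz
  rw [← Finset.sum_filter_add_sum_filter_not (Icc 1 ⌊x⌋₊) (fun n => p ∣ n), add_comm]
  congr 1
  rw [Nat.floor_div_natCast, Finset.mul_sum]
  symm
  refine Finset.sum_bij (fun m _ => p * m) ?_ ?_ ?_ ?_
  · intro m hm
    rw [mem_Icc] at hm
    rw [mem_filter, mem_Icc]
    refine ⟨⟨Nat.mul_pos hp.pos hm.1, ?_⟩, dvd_mul_right _ _⟩
    have := (Nat.le_div_iff_mul_le hp.pos).1 hm.2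
    rwa [mul_comm] at this
  · intro a _ b _ h
    exact Nat.eq_of_mul_eq_mul_left hp.pos h
  · intro n hn
    rw [mem_filter, mem_Icc] at hn
    obtain ⟨m, rfl⟩ := hn.2
    refine ⟨m, ?_, rfl⟩
    rw [mem_Icc]
    refine ⟨?_, ?_⟩
    · rcases Nat.eq_zero_or_pos m with rfl | h
      · simp at hn
      · exact h
    · rw [Nat.le_div_iff_mul_le hp.pos, mul_comm]; exact hn.1.2
  · intro m _
    rw [map_mul, cmul_prime hp]

theorem norm_le_pow_bound {E' : ℝ → ℂ} {E : ℝ → ℂ} {a b : ℂ} (ha : ‖a‖ ≤ 1) (hb : ‖b‖ ≤ 1)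
    {C D : ℝ} (hC : 0 ≤ C) (hD : 0 ≤ D) {p : ℕ} (hp : 2 ≤ p)
    (hE : ∀ x, 0 < x → ‖E x‖ ≤ C * √x) (hsmall : ∀ x, 0 < x → x < 1 → ‖E' x‖ ≤ D * √x)
    (hrec : ∀ x, 0 < x → E' x = a * E' (x / p) + (E x - b * E (x / p))) :
    ∀ x, 0 < x → ‖E' x‖ ≤ (D + 8 * C) * √x := by
  have hp0 : (0:ℝ) < p := by positivity
  have hp2 : (2:ℝ) ≤ p := by exact_mod_cast hp
  have key : ∀ n : ℕ, ∀ x : ℝ, 0 < x → x < 2 ^ n → ‖E' x‖ ≤ (D + 8 * C) * √x := by
    intro n
    induction n with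
    | zero =>
      intro x hx hx1
      rw [pow_zero] at hx1
      refine (hsmall x hx hx1).trans ?_
      gcongr
      linarith
    | succ n ih =>
      intro x hx hx1
      rcases lt_or_ge x 1 with h1 | h1
      · refine (hsmall x hx h1).trans ?_
        gcongr
        linarith
      have hx2 : 0 < x / p := by positivity
      have hx3 : x / p < 2 ^ n := by
        rw [div_lt_iff₀ hp0]
        calc x < 2 ^ (n + 1) := hx1
          _ = 2 ^ n * 2 := pow_succ _ _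
          _ ≤ 2 ^ n * p := by gcongr
      have hs : √(x / p) ≤ (3 / 4) * √x := by
        rw [Real.sqrt_le_left (by positivity), mul_pow, Real.sq_sqrt hx.le, div_le_iff₀ hp0]
        nlinarith
      have hs0 : 0 ≤ √x := Real.sqrt_nonneg _
      rw [hrec x hx]
      have e1 := ih (x / p) hx2 hx3
      have e2 := hE x hx
      have e3 := hE (x / p) hx2
      calc ‖a * E' (x / p) + (E x - b * E (x / p))‖
          ≤ ‖a * E' (x / p)‖ + (‖E x‖ + ‖b * E (x / p)‖) := by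
            refine (norm_add_le _ _).trans ?_
            gcongr
            exact norm_sub_le _ _
        _ ≤ 1 * ‖E' (x / p)‖ + (‖E x‖ + 1 * ‖E (x / p)‖) := by
            rw [norm_mul, norm_mul]
            gcongr
        _ ≤ 1 * ((D + 8 * C) * ((3 / 4) * √x)) + (C * √x + 1 * (C * ((3 / 4) * √x))) := by
            gcongr
            · exact e1.trans (by gcongr)
            · exact e3.trans (by gcongr)
        _ ≤ (D + 8 * C) * √x := by nlinarith [mul_nonneg hC hs0, mul_nonneg hD hs0]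
  intro x hx
  obtain ⟨n, hn⟩ := pow_unbounded_of_one_lt x (one_lt_two)
  exact key n x hx hn

/-- The mean value of `cmul z`. -/
noncomputable def meanz (S : Finset ℕ) (z : ℕ → ℂ) : ℂ :=
  ∏ p ∈ S, (1 - 1 / (p : ℂ)) / (1 - z p / p)

theorem one_sub_div_ne_zero {w : ℂ} (hw : ‖w‖ ≤ 1) {p : ℕ} (hp : 2 ≤ p) : 1 - w / (p : ℂ) ≠ 0 := by
  intro h
  have h1 : w / (p : ℂ) = 1 := (sub_eq_zero.1 h).symm
  have h2 : ‖w / (p : ℂ)‖ = 1 := by rw [h1]; simp
  rw [norm_div, Complex.norm_natCast] at h2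
  have h3 : (2:ℝ) ≤ p := by exact_mod_cast hp
  have h4 : ‖w‖ / p ≤ 1 / 2 := by
    rw [div_le_div_iff₀ (by linarith) (by norm_num)]
    nlinarith [norm_nonneg w]
  linarith

theorem sumz_asymp (S : Finset ℕ) : ∀ z : ℕ → ℂ, (∀ p ∈ S, p.Prime) → (∀ p ∉ S, z p = 1) →
    (∀ p, ‖z p‖ ≤ 1) →
    ∃ C : ℝ, 0 ≤ C ∧ ∀ x : ℝ, 0 < x → ‖sumz z x - meanz S z * x‖ ≤ C * √x := by
  induction S using Finset.induction_on with
  | empty =>
    intro z _ hz1 _
    refine ⟨1, zero_le_one, fun x hx => ?_⟩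
    have h1 : sumz z x = (⌊x⌋₊ : ℂ) := by
      unfold sumz
      have : ∀ n ∈ Icc 1 ⌊x⌋₊, cmul z n = 1 := by
        intro n hn
        rw [mem_Icc] at hn
        rw [cmul_apply (by omega)]
        refine Finset.prod_eq_one fun p _ => ?_
        show z p ^ _ = 1
        rw [hz1 p (by simp), one_pow]
      rw [Finset.sum_congr rfl this]
      simp
    have h2 : (⌊x⌋₊ : ℂ) - (x : ℂ) = (((⌊x⌋₊ : ℝ) - x : ℝ) : ℂ) := by push_cast; ring
    simp only [meanz, Finset.prod_empty, one_mul]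
    rw [h1, h2, Complex.norm_real, Real.norm_eq_abs, abs_sub_comm]
    have h3 : (⌊x⌋₊ : ℝ) ≤ x := Nat.floor_le hx.le
    have h4 : x < ⌊x⌋₊ + 1 := Nat.lt_floor_add_one x
    rw [abs_of_nonneg (by linarith)]
    rcases lt_or_ge x 1 with h5 | h5
    · rw [Nat.floor_eq_zero.2 h5]
      simp only [Nat.cast_zero, sub_zero]
      rw [Real.le_sqrt' hx]
      nlinarith
    · have : 1 ≤ √x := by rw [Real.one_le_sqrt]; exact h5
      linarith
  | insert q S hq ih =>
    intro z hS hz1 hz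
    have hqp : q.Prime := hS q (by simp)
    set z0 : ℕ → ℂ := Function.update z q 1 with hz0
    have hz0q : z0 q = 1 := by simp [hz0]
    have hz0p : ∀ p, p ≠ q → z0 p = z p := fun p hp => by simp [hz0, hp]
    obtain ⟨C, hC, hbound⟩ := ih z0 (fun p hp => hS p (by simp [hp]))
      (fun p hp => by
        rcases eq_or_ne p q with rfl | h
        · exact hz0q
        · rw [hz0p p h]; exact hz1 p (by simp [hp, h]))
      (fun p => by
        rcases eq_or_ne p q with rfl | h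
        · rw [hz0q]; simp
        · rw [hz0p p h]; exact hz p)
    have hmean : meanz (insert q S) z * (1 - z q / q) = meanz S z0 * (1 - 1 / q) := by
      unfold meanz
      rw [Finset.prod_insert hq]
      have h1 : ∏ p ∈ S, (1 - 1 / (p : ℂ)) / (1 - z p / p) =
          ∏ p ∈ S, (1 - 1 / (p : ℂ)) / (1 - z0 p / p) := by
        refine Finset.prod_congr rfl fun p hp => ?_
        rw [hz0p p (fun h => hq (h ▸ hp))]
      rw [h1]
      have h2 : (1 - z q / (q : ℂ)) ≠ 0 := one_sub_div_ne_zero (hz q) hqp.two_le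
      field_simp
    have hqC : (q : ℂ) ≠ 0 := by exact_mod_cast hqp.ne_zero
    set A' := meanz (insert q S) z
    set A := meanz S z0
    refine ⟨‖A'‖ + 8 * C, by positivity, ?_⟩
    refine norm_le_pow_bound (E' := fun x => sumz z x - A' * x) (E := fun x => sumz z0 x - A * x)
      (a := z q) (b := 1) (hz q) (by simp) hC (norm_nonneg _) hqp.two_le hbound ?_ ?_
    · intro x hx hx1
      have h3 : sumz z x = 0 := by
        unfold sumz
        rw [Nat.floor_eq_zero.2 hx1]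
        simp
      simp only [h3, zero_sub, norm_neg, norm_mul, Complex.norm_real, Real.norm_eq_abs,
        abs_of_pos hx]
      gcongr
      rw [Real.le_sqrt' hx]
      nlinarith
    · intro x hx
      have h4 := sumz_split z hqp x
      have h5 := sumz_split z0 hqp x
      have h6 : ∑ n ∈ (Icc 1 ⌊x⌋₊).filter (fun n => ¬ q ∣ n), cmul z n =
          ∑ n ∈ (Icc 1 ⌊x⌋₊).filter (fun n => ¬ q ∣ n), cmul z0 n := by
        refine Finset.sum_congr rfl fun n hn => ?_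
        refine cmul_congr fun p _ hpn => ?_
        rw [hz0p p]
        rintro rfl
        exact (mem_filter.1 hn).2 hpn
      rw [h6] at h4
      rw [hz0q] at h5
      have h7 : sumz z x - z q * sumz z (x / q) = sumz z0 x - 1 * sumz z0 (x / q) := by
        linear_combination h4 - h5
      have h8 : A' * x - z q * (A' * (x / q)) = A * x - 1 * (A * (x / q)) := by
        have h9 : A' * x - z q * (A' * (x / q)) = (A' * (1 - z q / q)) * x := by ring
        rw [h9, hmean]; ring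
      push_cast
      linear_combination h7 - h8


theorem cmul_lseriesSummable {z : ℕ → ℂ} (hz : ∀ p, ‖z p‖ ≤ 1) {s : ℂ} (hs : 1 < s.re) :
    LSeriesSummable (cmul z) s :=
  LSeriesSummable_of_bounded_of_one_lt_re (m := 1) (fun n _ => cmul_norm_le (fun p _ => hz p) n) hs

theorem natCast_cpow_norm_lt_one {p : ℕ} (hp : 2 ≤ p) {s : ℂ} (hs : 0 < s.re) :
    ‖(p : ℂ) ^ (-s)‖ < 1 := by
  rw [Complex.norm_natCast_cpow_of_pos (by omega)]
  refine Real.rpow_lt_one_of_one_lt_of_neg ?_ (by simpa using hs)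
  exact_mod_cast (by omega : 1 < p)

theorem one_sub_mul_cpow_ne_zero {w : ℂ} (hw : ‖w‖ ≤ 1) {p : ℕ} (hp : 2 ≤ p) {s : ℂ}
    (hs : 0 < s.re) : 1 - w * (p : ℂ) ^ (-s) ≠ 0 := by
  intro h
  have h1 : w * (p : ℂ) ^ (-s) = 1 := (sub_eq_zero.1 h).symm
  have h2 : ‖w * (p : ℂ) ^ (-s)‖ = 1 := by rw [h1]; simp
  have h3 := natCast_cpow_norm_lt_one hp hs
  rw [norm_mul] at h2
  nlinarith [norm_nonneg w, norm_nonneg ((p : ℂ) ^ (-s))]

theorem lseries_cmul_euler {z : ℕ → ℂ} (hz : ∀ p, ‖z p‖ ≤ 1) {s : ℂ} (hs : 1 < s.re) :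
    HasProd (fun p : Nat.Primes => (1 - z p * (p : ℂ) ^ (-s))⁻¹) (LSeries (cmul z) s) := by
  have hs0 : s ≠ 0 := Complex.ne_zero_of_one_lt_re hs
  set f : ℕ →*₀ ℂ := cmul z * riemannZetaSummandHom hs0 with hf
  have hfn : ∀ n, f n = cmul z n * (n : ℂ) ^ (-s) := by
    intro n; rfl
  have hterm : ∀ n, LSeries.term (cmul z) s n = f n := by
    intro n
    rw [hfn]
    rcases eq_or_ne n 0 with rfl | hn
    · simp
    · rw [LSeries.term_of_ne_zero hn, Complex.cpow_neg, div_eq_mul_inv]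
  have hsum : Summable (fun n => ‖f n‖) := by
    have h1 := (cmul_lseriesSummable hz hs).norm
    refine h1.congr fun n => ?_
    rw [hterm]
  have h2 := EulerProduct.eulerProduct_completely_multiplicative_hasProd (f := f) hsum
  have h3 : ∑' n, f n = LSeries (cmul z) s := by
    unfold LSeries
    exact tsum_congr fun n => (hterm n).symm
  rw [h3] at h2
  have h4 : (fun p : Nat.Primes => (1 - z p * (p : ℂ) ^ (-s))⁻¹) =
      fun p : Nat.Primes => (1 - f p)⁻¹ := by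
    funext p
    rw [hfn, cmul_prime p.2]
  rw [h4]
  exact h2

theorem lseries_cmul (S : Finset ℕ) : ∀ z : ℕ → ℂ, (∀ p ∈ S, p.Prime) → (∀ p ∉ S, z p = 1) →
    (∀ p, ‖z p‖ ≤ 1) → ∀ s : ℂ, 1 < s.re →
    LSeries (cmul z) s * ∏ p ∈ S, (1 - z p * (p : ℂ) ^ (-s)) =
      riemannZeta s * ∏ p ∈ S, (1 - (p : ℂ) ^ (-s)) := by
  classical
  induction S using Finset.induction_on with
  | empty =>
    intro z _ hz1 _ s hs
    simp only [Finset.prod_empty, mul_one]
    rw [← LSeries_one_eq_riemannZeta hs]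
    refine LSeries_congr (fun {n} hn => ?_) s
    rw [cmul_apply hn]
    refine Finset.prod_eq_one fun p _ => ?_
    show z p ^ _ = 1
    rw [hz1 p (by simp), one_pow]
  | insert q S hq ih =>
    intro z hS hz1 hz s hs
    have hqp : q.Prime := hS q (by simp)
    set z0 : ℕ → ℂ := Function.update z q 1 with hz0
    have hz0q : z0 q = 1 := by simp [hz0]
    have hz0p : ∀ p, p ≠ q → z0 p = z p := fun p hp => by simp [hz0, hp]
    have hz0n : ∀ p, ‖z0 p‖ ≤ 1 := fun p => by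
      rcases eq_or_ne p q with rfl | h
      · rw [hz0q]; simp
      · rw [hz0p p h]; exact hz p
    have h1 := ih z0 (fun p hp => hS p (by simp [hp]))
      (fun p hp => by
        rcases eq_or_ne p q with rfl | h
        · exact hz0q
        · rw [hz0p p h]; exact hz1 p (by simp [hp, h])) hz0n s hs
    have h2 := lseries_cmul_euler hz0n hs
    have h3 := lseries_cmul_euler hz hs
    obtain ⟨P, hP⟩ : ∃ P : Nat.Primes, (P : ℕ) = q := ⟨⟨q, hqp⟩, rfl⟩
    have h4 : (fun p : Nat.Primes => (1 - z p * (p : ℂ) ^ (-s))⁻¹) =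
        Function.update (fun p : Nat.Primes => (1 - z0 p * (p : ℂ) ^ (-s))⁻¹) P
          ((1 - z q * (q : ℂ) ^ (-s))⁻¹) := by
      funext p
      rcases eq_or_ne p P with rfl | h
      · rw [Function.update_self, hP]
      · rw [Function.update_of_ne h]
        have : (p : ℕ) ≠ q := fun h' => h (Subtype.ext (h'.trans hP.symm))
        rw [hz0p _ this]
    rw [h4] at h3
    have h5 := h2.update' P ((1 - z q * (q : ℂ) ^ (-s))⁻¹) h3
    simp only [hP, hz0q, one_mul] at h5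
    have h6 : (1 - z q * (q : ℂ) ^ (-s)) ≠ 0 :=
      one_sub_mul_cpow_ne_zero (hz q) hqp.two_le (by linarith)
    have h7 : (1 - (q : ℂ) ^ (-s)) ≠ 0 := by
      have := one_sub_mul_cpow_ne_zero (w := 1) (by simp) hqp.two_le (s := s) (by linarith)
      simpa using this
    rw [Finset.prod_insert hq, Finset.prod_insert hq]
    have h8 : ∏ p ∈ S, (1 - z p * (p : ℂ) ^ (-s)) = ∏ p ∈ S, (1 - z0 p * (p : ℂ) ^ (-s)) := by
      refine Finset.prod_congr rfl fun p hp => ?_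
      rw [hz0p p (fun h => hq (h ▸ hp))]
    rw [h8]
    have h9 : LSeries (cmul z0) s * (1 - (q : ℂ) ^ (-s)) =
        LSeries (cmul z) s * (1 - z q * (q : ℂ) ^ (-s)) := by
      field_simp at h5
      linear_combination h5
    linear_combination (1 - (q : ℂ) ^ (-s)) * h1 -
      (∏ p ∈ S, (1 - z0 p * (p : ℂ) ^ (-s))) * h9

theorem quad_upper (x a : ℝ) : 1 - 2 * x * a + x ^ 2 ≤ Real.exp (-2 * x * a + x ^ 2) := by
  have := Real.add_one_le_exp (-2 * x * a + x ^ 2)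
  linarith

theorem quad_lower {x a : ℝ} (hx0 : 0 ≤ x) (hx : x ≤ 1 / 11) (ha : |a| ≤ 1) :
    Real.exp (-2 * x * a - 6 * x ^ 2) ≤ 1 - 2 * x * a + x ^ 2 := by
  obtain ⟨ha1, ha2⟩ := abs_le.1 ha
  set v : ℝ := -2 * x * a - 6 * x ^ 2 with hv
  have hxa : |x * a| ≤ x := by
    rw [abs_mul, abs_of_nonneg hx0]; nlinarith
  obtain ⟨hxa1, hxa2⟩ := abs_le.1 hxa
  have hv1 : |v| ≤ 1 := by
    rw [abs_le]; constructor <;> nlinarith
  have h1 := (abs_le.1 (Real.abs_exp_sub_one_sub_id_le hv1)).2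
  have h2 : v ^ 2 ≤ 7 * x ^ 2 := by
    have h3 : v ^ 2 = x ^ 2 * (2 * a + 6 * x) ^ 2 := by rw [hv]; ring
    have h4 : (2 * a + 6 * x) ^ 2 ≤ 7 := by
      have h5 : 2 * a + 6 * x ≤ 28 / 11 := by linarith
      have h6 : -(28 / 11) ≤ 2 * a + 6 * x := by linarith
      nlinarith
    rw [h3]; nlinarith [sq_nonneg x]
  have h7 : Real.exp v ≤ 1 + v + v ^ 2 := by linarith
  have : 1 + v + v ^ 2 ≤ 1 - 2 * x * a + x ^ 2 := by rw [hv] at *; nlinarith
  linarith

theorem norm_one_sub_sq {x : ℝ} {v : ℂ} (hv : ‖v‖ = 1) :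
    ‖1 - (x : ℂ) * v‖ ^ 2 = 1 - 2 * x * v.re + x ^ 2 := by
  rw [← Complex.normSq_eq_norm_sq, Complex.normSq_sub, Complex.normSq_mul, Complex.normSq_ofReal,
    Complex.normSq_eq_norm_sq v, hv]
  simp
  ring

/-- local inequality -/
theorem local_ineq {x : ℝ} (hx0 : 0 ≤ x) (hx : x ≤ 1 / 11) {u : ℂ} (hu : ‖u‖ = 1) :
    ∃ z : ℂ, ‖z‖ = 1 ∧
      (‖1 - (x : ℂ) * u‖ * ‖1 - (x : ℂ) * z‖) ^ 2 ≤
        Real.exp (-(x * (1 - u.re ^ 2) / 2) + 14 * x ^ 2) *
          ((1 - x) * ‖1 - (x : ℂ) * (z * u)‖) ^ 2 := by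
  -- choose z
  obtain ⟨z, hz, hzu⟩ : ∃ z : ℂ, ‖z‖ = 1 ∧ (z * (1 - u)).re = ‖1 - u‖ := by
    rcases eq_or_ne (1 - u) 0 with h | h
    · exact ⟨1, by simp, by simp [h]⟩
    · refine ⟨(starRingEnd ℂ) (1 - u) / ‖1 - u‖, ?_, ?_⟩
      · rw [norm_div, RCLike.norm_conj, Complex.norm_real, norm_norm, div_self]
        exact norm_ne_zero_iff.2 h
      · have h1 : (starRingEnd ℂ) (1 - u) / ‖1 - u‖ * (1 - u) = (‖1 - u‖ : ℂ) := by
          have h2 := Complex.conj_mul' (1 - u)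
          have h3 : (‖1 - u‖ : ℂ) ≠ 0 := by exact_mod_cast norm_ne_zero_iff.2 h
          rw [div_mul_eq_mul_div, h2]
          field_simp
        rw [h1, Complex.ofReal_re]
  refine ⟨z, hz, ?_⟩
  have hzu1 : ‖z * u‖ = 1 := by rw [norm_mul, hz, hu, one_mul]
  have hre : ∀ w : ℂ, ‖w‖ = 1 → |w.re| ≤ 1 := fun w hw => hw ▸ Complex.abs_re_le_norm w
  rw [mul_pow, mul_pow, norm_one_sub_sq hu, norm_one_sub_sq hz, norm_one_sub_sq hzu1]
  have h1 := quad_upper x u.re
  have h2 := quad_upper x z.re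
  have h3 := quad_lower hx0 hx (hre _ hzu1)
  have h4 := quad_lower (a := 1) hx0 hx (by simp)
  have h4' : Real.exp (-2 * x * 1 - 6 * x ^ 2) ≤ (1 - x) ^ 2 := by
    refine h4.trans (le_of_eq ?_); ring
  have h5 : 0 ≤ 1 - 2 * x * z.re + x ^ 2 := by
    rw [← norm_one_sub_sq hz]; positivity
  have h6 : 0 ≤ 1 - 2 * x * u.re + x ^ 2 := by
    rw [← norm_one_sub_sq hu]; positivity
  -- the key inequality on exponents
  have ha2 : ‖1 - u‖ ^ 2 = 2 - 2 * u.re := by
    rw [← Complex.normSq_eq_norm_sq, Complex.normSq_sub]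
    simp [Complex.normSq_eq_norm_sq, hu]; ring
  have ha0 : 0 ≤ ‖1 - u‖ := norm_nonneg _
  have ha3 : ‖1 - u‖ ≤ 2 := by
    calc ‖1 - u‖ ≤ ‖(1:ℂ)‖ + ‖u‖ := norm_sub_le _ _
      _ = 2 := by rw [hu]; norm_num
  have hzre : z.re - (z * u).re = ‖1 - u‖ := by
    rw [← hzu, mul_sub, mul_one, Complex.sub_re]
  have hkey : (1 - u.re ^ 2) / 4 ≤ ‖1 - u‖ - (1 - u.re) := by
    set a := ‖1 - u‖
    have hur : u.re = 1 - a ^ 2 / 2 := by linarith
    have h7 : (1 - u.re ^ 2) / 4 = a ^ 2 * (2 - a) * (2 + a) / 16 := by rw [hur]; ring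
    have h8 : a - (1 - u.re) = a * (2 - a) / 2 := by rw [hur]; ring
    rw [h7, h8]
    have h9 : 0 ≤ a * (2 - a) := mul_nonneg ha0 (by linarith)
    have h10 : a * (2 + a) ≤ 8 := by nlinarith
    nlinarith [mul_le_mul_of_nonneg_left h10 h9]
  calc (1 - 2 * x * u.re + x ^ 2) * (1 - 2 * x * z.re + x ^ 2)
      ≤ Real.exp (-2 * x * u.re + x ^ 2) * Real.exp (-2 * x * z.re + x ^ 2) := by
        gcongr
    _ = Real.exp ((-2 * x * u.re + x ^ 2) + (-2 * x * z.re + x ^ 2)) := (Real.exp_add _ _).symm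
    _ ≤ Real.exp ((-(x * (1 - u.re ^ 2) / 2) + 14 * x ^ 2) +
          ((-2 * x * 1 - 6 * x ^ 2) + (-2 * x * (z * u).re - 6 * x ^ 2))) := by
        apply Real.exp_le_exp.2
        have h11 : (z * u).re = z.re - ‖1 - u‖ := by linarith
        rw [h11]
        nlinarith [mul_le_mul_of_nonneg_left hkey hx0]
    _ = Real.exp (-(x * (1 - u.re ^ 2) / 2) + 14 * x ^ 2) *
          (Real.exp (-2 * x * 1 - 6 * x ^ 2) * Real.exp (-2 * x * (z * u).re - 6 * x ^ 2)) := by
        rw [← Real.exp_add (-2 * x * 1 - 6 * x ^ 2), ← Real.exp_add]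
    _ ≤ Real.exp (-(x * (1 - u.re ^ 2) / 2) + 14 * x ^ 2) *
          ((1 - x) ^ 2 * (1 - 2 * x * (z * u).re + x ^ 2)) := by
        gcongr

/-- averaging in `t` -/
theorem exists_good_t (T : Finset ℕ) (hT : ∀ p ∈ T, 11 ≤ p) :
    ∃ t : ℝ, 1 ≤ t ∧ t ≤ 2 ∧ (1 / 4) * ∑ p ∈ T, (1 / (p : ℝ)) ≤
      ∑ p ∈ T, Real.sin (t * Real.log p) ^ 2 / p := by
  set F : ℝ → ℝ := fun t => ∑ p ∈ T, Real.sin (t * Real.log p) ^ 2 / p with hF
  have hFc : Continuous F := by
    refine continuous_finsetSum _ fun p _ => ?_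
    fun_prop
  obtain ⟨t, ht, hmax⟩ := (isCompact_Icc (a := (1:ℝ)) (b := 2)).exists_isMaxOn
    ⟨1, by norm_num⟩ hFc.continuousOn
  refine ⟨t, ht.1, ht.2, ?_⟩
  have h1 : ∫ s in (1:ℝ)..2, F s ≤ F t := by
    have h2 : ∫ s in (1:ℝ)..2, F s ≤ ∫ s in (1:ℝ)..2, F t := by
      refine intervalIntegral.integral_mono_on (by norm_num) (hFc.intervalIntegrable _ _)
        intervalIntegrable_const fun s hs => hmax hs
    refine h2.trans (le_of_eq ?_)
    rw [intervalIntegral.integral_const]; norm_num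
  refine le_trans ?_ h1
  rw [hF, intervalIntegral.integral_finsetSum, Finset.mul_sum]
  · refine Finset.sum_le_sum fun p hp => ?_
    have hp0 : (0:ℝ) < p := by have := hT p hp; positivity
    have hlog : 2 ≤ Real.log p := by
      have h3 : (11:ℝ) ≤ p := by exact_mod_cast hT p hp
      have h4 : Real.exp 2 ≤ 11 := by
        have h5 : Real.exp 2 = Real.exp 1 * Real.exp 1 := by rw [← Real.exp_add]; norm_num
        have h6 := Real.exp_one_lt_d9
        have h7 := Real.exp_pos 1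
        rw [h5]; nlinarith
      rw [Real.le_log_iff_exp_le hp0]; linarith
    set l := Real.log p with hl
    have hl0 : l ≠ 0 := by linarith
    have h8 : ∫ s in (1:ℝ)..2, Real.sin (s * l) ^ 2 / p =
        (1 / p) * (l⁻¹ * ((Real.sin l * Real.cos l - Real.sin (2 * l) * Real.cos (2 * l) +
          2 * l - l) / 2)) := by
      have h9 : ∫ s in (1:ℝ)..2, Real.sin (s * l) ^ 2 / p =
          ∫ s in (1:ℝ)..2, (1 / p) * (fun y => Real.sin y ^ 2) (s * l) := by
        refine intervalIntegral.integral_congr fun s _ => ?_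
        simp only; ring
      rw [h9, intervalIntegral.integral_const_mul,
        intervalIntegral.integral_comp_mul_right (fun y => Real.sin y ^ 2) hl0, integral_sin_sq,
        one_mul, smul_eq_mul]
    rw [h8]
    have h10 : (1 / 4 : ℝ) ≤ l⁻¹ * ((Real.sin l * Real.cos l - Real.sin (2 * l) * Real.cos (2 * l) +
          2 * l - l) / 2) := by
      have h11 : Real.sin l * Real.cos l = Real.sin (2 * l) / 2 := by rw [Real.sin_two_mul]; ring
      have h12 : Real.sin (2 * l) * Real.cos (2 * l) = Real.sin (2 * (2 * l)) / 2 := by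
        rw [Real.sin_two_mul (2 * l)]; ring
      rw [h11, h12]
      have h13 := Real.neg_one_le_sin (2 * l)
      have h14 := Real.sin_le_one (2 * (2 * l))
      have hlpos : 0 < l := by linarith
      rw [inv_mul_eq_div, le_div_iff₀ hlpos]
      linarith
    rw [mul_comm]
    gcongr
  · intro p _
    exact Continuous.intervalIntegrable (by fun_prop) _ _

theorem exists_large_T (K : Finset ℕ) (L : ℝ) : ∃ T : Finset ℕ, (∀ p ∈ T, p.Prime) ∧
    (∀ p ∈ T, 11 ≤ p) ∧ (∀ p ∈ T, p ∉ K) ∧ L ≤ ∑ p ∈ T, (1 / (p : ℝ)) := by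
  classical
  by_contra hcon
  push Not at hcon
  apply not_summable_one_div_on_primes
  set f : ℕ → ℝ := Set.indicator {p : ℕ | p.Prime} (fun n => (1:ℝ) / n) with hf
  have hf0 : ∀ n, 0 ≤ f n := fun n => Set.indicator_nonneg (fun _ _ => by positivity) n
  set K' : Finset ℕ := K ∪ range 11 with hK'
  refine summable_of_sum_le (c := L + ∑ n ∈ K', f n) hf0 fun U => ?_
  have h1 : ∑ n ∈ U, f n ≤ ∑ n ∈ (U \ K') ∪ K', f n := by
    refine Finset.sum_le_sum_of_subset_of_nonneg ?_ fun n _ _ => hf0 n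
    intro n hn
    by_cases h : n ∈ K' <;> simp [hn, h]
  refine h1.trans ?_
  rw [Finset.sum_union Finset.sdiff_disjoint]
  gcongr
  set T := (U \ K').filter (fun p => p.Prime) with hT
  have h2 : ∑ n ∈ U \ K', f n = ∑ p ∈ T, (1 / (p : ℝ)) := by
    rw [hT, Finset.sum_filter]
    refine Finset.sum_congr rfl fun n _ => ?_
    simp [hf, Set.indicator_apply]
  rw [h2]
  refine (hcon T ?_ ?_ ?_).le
  · intro p hp; rw [hT, mem_filter] at hp; exact hp.2
  · intro p hp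
    rw [hT, mem_filter, Finset.mem_sdiff, hK', mem_union, mem_range] at hp
    push Not at hp
    exact hp.1.2.2
  · intro p hp
    rw [hT, mem_filter, Finset.mem_sdiff, hK', mem_union, mem_range] at hp
    push Not at hp
    exact hp.1.2.1

theorem ratio_aux {X Y W c E : ℝ} (hY : 0 < Y) (hW : 0 < W)
    (h : (X * Y) ^ 2 ≤ E * (c * W) ^ 2) : (X / W) ^ 2 ≤ E * (c / Y) ^ 2 := by
  rw [div_pow, div_pow, ← mul_div_assoc, div_le_div_iff₀ (by positivity) (by positivity)]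
  calc X ^ 2 * Y ^ 2 = (X * Y) ^ 2 := by ring
    _ ≤ _ := h
    _ = _ := by ring

theorem exists_twist (K : Finset ℕ) (hK : ∀ p ∈ K, p.Prime) (C : ℝ) :
    ∃ (t : ℝ) (S : Finset ℕ) (z : ℕ → ℂ), 1 ≤ t ∧ t ≤ 2 ∧ (∀ p ∈ S, p.Prime) ∧
      (∀ p ∉ S, z p = 1) ∧ (∀ p ∈ K, z p = 0) ∧ (∀ p ∉ K, ‖z p‖ = 1) ∧
      ‖(t : ℂ) * (riemannZeta (1 + t * I) *
        ∏ p ∈ S, (1 - (p : ℂ) ^ (-(1 + t * I))) / (1 - z p * (p : ℂ) ^ (-(1 + t * I))))‖ ≤
        Real.exp (-C) * ‖meanz S z‖ := by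
  classical
  -- bound for zeta
  obtain ⟨M, hM⟩ : ∃ M : ℝ, ∀ t ∈ Set.Icc (1:ℝ) 2, ‖(t : ℂ) * riemannZeta (1 + t * I)‖ ≤ M := by
    have hc : ContinuousOn (fun t : ℝ => (t : ℂ) * riemannZeta (1 + t * I)) (Set.Icc (1:ℝ) 2) := by
      intro t ht
      refine ContinuousAt.continuousWithinAt ?_
      refine ContinuousAt.mul (by fun_prop) ?_
      have h1 : (1 + t * I : ℂ) ≠ 1 := by
        intro h
        have := congrArg Complex.im h
        simp at this
        linarith [ht.1]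
      exact ContinuousAt.comp (f := fun t : ℝ => (1 + t * I : ℂ)) (g := riemannZeta)
        (differentiableAt_riemannZeta h1).continuousAt (by fun_prop)
    obtain ⟨M, hM⟩ := (isCompact_Icc.image_of_continuousOn hc).isBounded.exists_norm_le
    exact ⟨M, fun t ht => hM _ ⟨t, ht, rfl⟩⟩
  have hM0 : 0 ≤ M := (norm_nonneg _).trans (hM 1 ⟨le_rfl, by norm_num⟩)
  -- bound for squares
  have hsumm : Summable (fun n : ℕ => 14 * (1 / (n : ℝ)) ^ 2) := by
    have h1 : Summable (fun n : ℕ => 1 / (n : ℝ) ^ 2) :=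
      Real.summable_one_div_nat_pow.2 (by norm_num)
    refine (h1.mul_left 14).congr fun n => ?_
    rw [div_pow, one_pow]
  set Q : ℝ := ∑' n : ℕ, 14 * (1 / (n : ℝ)) ^ 2 with hQ
  -- size of T
  set L : ℝ := 8 * (2 * C + 2 * M + 9 * K.card + Q) with hL
  obtain ⟨T, hTp, hT11, hTK, hTL⟩ := exists_large_T K L
  obtain ⟨t, ht1, ht2, htsum⟩ := exists_good_t T hT11
  -- choose z
  have hu : ∀ p : ℕ, p.Prime → ‖(p : ℂ) ^ (-(t * I))‖ = 1 := by
    intro p hp
    rw [Complex.norm_natCast_cpow_of_pos hp.pos]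
    simp
  have hchoose : ∀ p : ℕ, ∃ z : ℂ, (p ∈ T → ‖z‖ = 1 ∧
      (‖1 - ((1 / (p : ℝ) : ℝ) : ℂ) * (p : ℂ) ^ (-(t * I))‖ *
        ‖1 - ((1 / (p : ℝ) : ℝ) : ℂ) * z‖) ^ 2 ≤
        Real.exp (-((1 / (p : ℝ)) * (1 - ((p : ℂ) ^ (-(t * I))).re ^ 2) / 2) +
          14 * (1 / (p : ℝ)) ^ 2) *
          ((1 - (1 / (p : ℝ))) *
            ‖1 - ((1 / (p : ℝ) : ℝ) : ℂ) * (z * (p : ℂ) ^ (-(t * I)))‖) ^ 2) := by
    intro p
    by_cases hp : p ∈ T
    · have h11 : (11:ℝ) ≤ p := by exact_mod_cast hT11 p hp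
      obtain ⟨z, hz1, hz2⟩ := local_ineq (x := 1 / (p : ℝ)) (by positivity)
        (one_div_le_one_div_of_le (by norm_num) h11) (hu p (hTp p hp))
      exact ⟨z, fun _ => ⟨hz1, hz2⟩⟩
    · exact ⟨0, fun h => absurd h hp⟩
  choose zo hzo using hchoose
  set z : ℕ → ℂ := fun p => if p ∈ K then 0 else if p ∈ T then zo p else 1 with hz
  have hzK : ∀ p ∈ K, z p = 0 := fun p hp => by simp [hz, hp]
  have hzT : ∀ p ∈ T, z p = zo p := fun p hp => by simp [hz, hTK p hp, hp]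
  have hzS : ∀ p ∉ K ∪ T, z p = 1 := fun p hp => by
    rw [mem_union, not_or] at hp
    simp [hz, hp.1, hp.2]
  have hz1 : ∀ p ∉ K, ‖z p‖ = 1 := fun p hp => by
    by_cases h : p ∈ T
    · rw [hzT p h]; exact (hzo p h).1
    · rw [hzS p (by simp [hp, h])]; simp
  have hzle : ∀ p, ‖z p‖ ≤ 1 := fun p => by
    by_cases h : p ∈ K
    · rw [hzK p h]; simp
    · exact (hz1 p h).le
  have hSp : ∀ p ∈ K ∪ T, p.Prime := fun p hp => by
    rcases mem_union.1 hp with h | h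
    · exact hK p h
    · exact hTp p h
  refine ⟨t, K ∪ T, z, ht1, ht2, hSp, hzS, hzK, hz1, ?_⟩
  -- rewriting the powers
  have hpow : ∀ p : ℕ, p.Prime → (p : ℂ) ^ (-(1 + t * I)) =
      ((1 / (p : ℝ) : ℝ) : ℂ) * (p : ℂ) ^ (-(t * I)) := by
    intro p hp
    have hp0 : (p : ℂ) ≠ 0 := by exact_mod_cast hp.ne_zero
    rw [neg_add, Complex.cpow_add _ _ hp0, Complex.cpow_neg_one]
    push_cast; ring
  set a : ℕ → ℝ := fun p =>
    ‖(1 - (p : ℂ) ^ (-(1 + t * I))) / (1 - z p * (p : ℂ) ^ (-(1 + t * I)))‖ with ha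
  set b : ℕ → ℝ := fun p => ‖(1 - 1 / (p : ℂ)) / (1 - z p / p)‖ with hb
  set e : ℕ → ℝ := fun p => if p ∈ K then 9 else
    Real.exp (-((1 / (p : ℝ)) * (1 - ((p : ℂ) ^ (-(t * I))).re ^ 2) / 2) +
          14 * (1 / (p : ℝ)) ^ 2) with he
  have hae : ∀ p ∈ K ∪ T, a p ^ 2 ≤ e p * b p ^ 2 := by
    intro p hp
    have hpp := hSp p hp
    have hp0 : (0:ℝ) < p := by exact_mod_cast hpp.pos
    by_cases hpK : p ∈ K
    · simp only [ha, hb, he, hpK, if_true, hzK p hpK, zero_mul, sub_zero, zero_div, div_one]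
      have h2 : (2:ℝ) ≤ p := by exact_mod_cast hpp.two_le
      have h3 : ‖1 - (p : ℂ) ^ (-(1 + t * I))‖ ≤ 1 + 1 / p := by
        calc ‖1 - (p : ℂ) ^ (-(1 + t * I))‖ ≤ ‖(1:ℂ)‖ + ‖(p : ℂ) ^ (-(1 + t * I))‖ :=
              norm_sub_le _ _
          _ = 1 + 1 / p := by
              rw [hpow p hpp, norm_mul, hu p hpp, mul_one, Complex.norm_real, norm_one,
                Real.norm_of_nonneg (by positivity)]
      have h4 : ‖1 - 1 / (p : ℂ)‖ = 1 - 1 / p := by
        have h5 : (1 - 1 / (p : ℂ)) = ((1 - 1 / (p : ℝ) : ℝ) : ℂ) := by push_cast; ring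
        have h6 : (1:ℝ) / p ≤ 1 / 2 := one_div_le_one_div_of_le (by norm_num) h2
        rw [h5, Complex.norm_real, Real.norm_of_nonneg (by linarith)]
      rw [h4]
      have h6 : (1:ℝ) / p ≤ 1 / 2 := one_div_le_one_div_of_le (by norm_num) h2
      have h7 : 0 ≤ (1:ℝ) / p := by positivity
      have h8 := norm_nonneg (1 - (p : ℂ) ^ (-(1 + t * I)))
      have h9 : ‖1 - (p : ℂ) ^ (-(1 + t * I))‖ ≤ 3 * (1 - 1 / p) := by linarith
      calc ‖1 - (p : ℂ) ^ (-(1 + t * I))‖ ^ 2 ≤ (3 * (1 - 1 / (p:ℝ))) ^ 2 := by gcongr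
        _ = 9 * (1 - 1 / (p:ℝ)) ^ 2 := by ring
    · have hpT : p ∈ T := by
        rcases mem_union.1 hp with h | h
        · exact absurd h hpK
        · exact h
      have h1 := (hzo p hpT).2
      have hzp : ‖zo p‖ = 1 := (hzo p hpT).1
      simp only [ha, hb, he, hpK, if_false, hzT p hpT]
      rw [hpow p hpp]
      have h2 : ‖1 - 1 / (p : ℂ)‖ = 1 - 1 / p := by
        have h5 : (1 - 1 / (p : ℂ)) = ((1 - 1 / (p : ℝ) : ℝ) : ℂ) := by push_cast; ring
        have h6 : (1:ℝ) / p ≤ 1 / 2 :=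
          one_div_le_one_div_of_le (by norm_num) (by exact_mod_cast hpp.two_le)
        rw [h5, Complex.norm_real, Real.norm_of_nonneg (by linarith)]
      have h3 : (1 - zo p / (p : ℂ)) = 1 - ((1 / (p : ℝ) : ℝ) : ℂ) * zo p := by
        push_cast; ring
      have h4 : (1 - zo p * (((1 / (p : ℝ) : ℝ) : ℂ) * (p : ℂ) ^ (-(t * I)))) =
          1 - ((1 / (p : ℝ) : ℝ) : ℂ) * (zo p * (p : ℂ) ^ (-(t * I))) := by ring
      have h5 : 0 < ‖1 - ((1 / (p : ℝ) : ℝ) : ℂ) * zo p‖ := by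
        rw [← h3]; exact norm_pos_iff.2 (one_sub_div_ne_zero hzp.le hpp.two_le)
      have h6 : 0 < ‖1 - ((1 / (p : ℝ) : ℝ) : ℂ) * (zo p * (p : ℂ) ^ (-(t * I)))‖ := by
        have h7 : 1 - ((1 / (p : ℝ) : ℝ) : ℂ) * (zo p * (p : ℂ) ^ (-(t * I))) =
            1 - (zo p * (p : ℂ) ^ (-(t * I))) / (p : ℂ) := by push_cast; ring
        rw [h7]
        refine norm_pos_iff.2 (one_sub_div_ne_zero ?_ hpp.two_le)
        rw [norm_mul, hzp, hu p hpp, one_mul]
      rw [h4, h3, norm_div, norm_div, h2]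
      exact ratio_aux h5 h6 h1
  have hdisj : Disjoint K T := by
    rw [Finset.disjoint_left]; intro p hpK hpT; exact hTK p hpT hpK
  have hprod : (∏ p ∈ K ∪ T, a p) ^ 2 ≤ (∏ p ∈ K ∪ T, e p) * (∏ p ∈ K ∪ T, b p) ^ 2 := by
    rw [← Finset.prod_pow, ← Finset.prod_pow, ← Finset.prod_mul_distrib]
    exact Finset.prod_le_prod (fun p _ => by positivity) hae
  have hcos : ∀ p ∈ T, 1 - ((p : ℂ) ^ (-(t * I))).re ^ 2 = Real.sin (t * Real.log p) ^ 2 := by
    intro p hp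
    have hp0 : (p : ℂ) ≠ 0 := by exact_mod_cast (hTp p hp).ne_zero
    have h1 : (p : ℂ) ^ (-(t * I)) = cexp (((-(t * Real.log p) : ℝ) : ℂ) * I) := by
      rw [Complex.cpow_def_of_ne_zero hp0, ← Complex.natCast_log]
      congr 1; push_cast; ring
    rw [h1, Complex.exp_ofReal_mul_I_re, Real.cos_neg]
    have := Real.sin_sq_add_cos_sq (t * Real.log p)
    linarith
  have heprod : ∏ p ∈ K ∪ T, e p ≤ Real.exp (-(2 * C) - 2 * M) := by
    rw [Finset.prod_union hdisj]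
    have h1 : ∏ p ∈ K, e p ≤ Real.exp (9 * K.card) := by
      have h2 : ∏ p ∈ K, e p = 9 ^ K.card := by
        rw [← Finset.prod_const]
        exact Finset.prod_congr rfl fun p hp => by simp [he, hp]
      rw [h2, mul_comm, Real.exp_nat_mul]
      gcongr
      have := Real.add_one_le_exp (9:ℝ)
      linarith
    have h3 : ∏ p ∈ T, e p = Real.exp (∑ p ∈ T,
        (-((1 / (p : ℝ)) * (1 - ((p : ℂ) ^ (-(t * I))).re ^ 2) / 2) +
          14 * (1 / (p : ℝ)) ^ 2)) := by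
      rw [Real.exp_sum]
      exact Finset.prod_congr rfl fun p hp => by simp [he, hTK p hp]
    have h4 : ∑ p ∈ T, (-((1 / (p : ℝ)) * (1 - ((p : ℂ) ^ (-(t * I))).re ^ 2) / 2) +
          14 * (1 / (p : ℝ)) ^ 2) ≤ -(L / 8) + Q := by
      rw [Finset.sum_add_distrib]
      have h5 : ∑ p ∈ T, 14 * (1 / (p : ℝ)) ^ 2 ≤ Q :=
        hsumm.sum_le_tsum T (fun n _ => by positivity)
      have h6 : ∑ p ∈ T, (-((1 / (p : ℝ)) * (1 - ((p : ℂ) ^ (-(t * I))).re ^ 2) / 2)) =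
          -(1 / 2 * ∑ p ∈ T, Real.sin (t * Real.log p) ^ 2 / p) := by
        rw [Finset.sum_neg_distrib, Finset.mul_sum]
        congr 1
        refine Finset.sum_congr rfl fun p hp => ?_
        rw [hcos p hp]; ring
      rw [h6]
      linarith
    rw [h3]
    calc (∏ p ∈ K, e p) * Real.exp (∑ p ∈ T,
        (-((1 / (p : ℝ)) * (1 - ((p : ℂ) ^ (-(t * I))).re ^ 2) / 2) +
          14 * (1 / (p : ℝ)) ^ 2))
        ≤ Real.exp (9 * K.card) * Real.exp (-(L / 8) + Q) := by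
          gcongr
      _ = Real.exp (-(2 * C) - 2 * M) := by
          rw [← Real.exp_add]; congr 1; rw [hL]; ring
  have hMt := hM t ⟨ht1, ht2⟩
  have hMexp : M ≤ Real.exp M := by linarith [Real.add_one_le_exp M]
  have hfin : (‖(t : ℂ) * riemannZeta (1 + t * I)‖ * ∏ p ∈ K ∪ T, a p) ^ 2 ≤
      (Real.exp (-C) * ∏ p ∈ K ∪ T, b p) ^ 2 := by
    rw [mul_pow, mul_pow]
    calc ‖(t : ℂ) * riemannZeta (1 + t * I)‖ ^ 2 * (∏ p ∈ K ∪ T, a p) ^ 2
        ≤ Real.exp M ^ 2 * (Real.exp (-(2 * C) - 2 * M) * (∏ p ∈ K ∪ T, b p) ^ 2) := by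
          gcongr
          · exact hMt.trans hMexp
          · refine hprod.trans ?_
            gcongr
      _ = Real.exp (-C) ^ 2 * (∏ p ∈ K ∪ T, b p) ^ 2 := by
          rw [← mul_assoc, ← Real.exp_nat_mul, ← Real.exp_nat_mul, ← Real.exp_add]
          congr 2; push_cast; ring
  have hb0 : 0 ≤ ∏ p ∈ K ∪ T, b p := Finset.prod_nonneg fun p _ => norm_nonneg _
  have hfin2 := (abs_le_of_sq_le_sq' hfin (by positivity)).2
  have hnorm1 : ‖(t : ℂ) * (riemannZeta (1 + t * I) *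
        ∏ p ∈ K ∪ T, (1 - (p : ℂ) ^ (-(1 + t * I))) / (1 - z p * (p : ℂ) ^ (-(1 + t * I))))‖
      = ‖(t : ℂ) * riemannZeta (1 + t * I)‖ * ∏ p ∈ K ∪ T, a p := by
    rw [← mul_assoc, norm_mul, norm_prod]
  have hnorm2 : ‖meanz (K ∪ T) z‖ = ∏ p ∈ K ∪ T, b p := by
    unfold meanz; rw [norm_prod]
  rw [hnorm1, hnorm2]
  exact hfin2

/-- Abel summation estimate on a finite range. -/
theorem abel_finite (g : ℕ → ℂ) (hg0 : g 0 = 0) (A : ℂ) (C : ℝ)
    (hG : ∀ x : ℝ, 1 ≤ x → ‖∑ n ∈ Icc 1 ⌊x⌋₊, g n - A * x‖ ≤ C * √x)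
    (s : ℂ) (hs : 1 < s.re) (N M : ℕ) (hN : 1 ≤ N) (hNM : N ≤ M) :
    ‖∑ n ∈ Ioc N M, g n * (n : ℂ) ^ (-s) - A * ((N : ℂ) ^ (1 - s) - (M : ℂ) ^ (1 - s)) / (s - 1)‖
      ≤ (2 + 2 * ‖s‖) * C * (N : ℝ) ^ (1 / 2 - s.re) := by
  have hC : 0 ≤ C := by
    have := (norm_nonneg _).trans (hG 1 le_rfl)
    simpa using! this
  have hs0 : s ≠ 0 := fun h => by rw [h] at hs; simp at hs; linarith
  have hs1 : s ≠ 1 := fun h => by rw [h] at hs; simp at hs
  have hs1' : (1 : ℂ) - s ≠ 0 := sub_ne_zero.2 hs1.symm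
  have hNR : (1 : ℝ) ≤ N := by exact_mod_cast hN
  have hNMR : (N : ℝ) ≤ M := by exact_mod_cast hNM
  set f : ℝ → ℂ := fun t => (t : ℂ) ^ (-s) with hf
  set E : ℝ → ℂ := fun t => ∑ n ∈ Icc 1 ⌊t⌋₊, g n - A * t with hE
  have hIcc : ∀ n : ℕ, ∑ k ∈ Icc 0 n, g k = ∑ k ∈ Icc 1 n, g k := by
    intro n
    rw [← insert_Icc_add_one_left_eq_Icc n.zero_le, sum_insert (by simp), hg0, zero_add, zero_add]
  have hderiv : ∀ t : ℝ, 0 < t → deriv f t = -s * (t : ℂ) ^ (-s - 1) := by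
    intro t ht
    rw [hf, Complex.deriv_ofReal_cpow_const ht.ne' (neg_ne_zero.2 hs0)]
  have hdiff : ∀ t ∈ Set.Icc (N : ℝ) M, DifferentiableAt ℝ f t := by
    intro t ht
    have ht0 : (0:ℝ) < t := by linarith [ht.1]
    exact differentiableAt_id.ofReal_cpow_const ht0.ne' (neg_ne_zero.2 hs0)
  have hcont : ContinuousOn (fun t : ℝ => -s * (t : ℂ) ^ (-s - 1)) (Set.Icc (N : ℝ) M) := by
    intro t ht
    have ht0 : (0:ℝ) < t := by linarith [ht.1]
    exact (continuousAt_const.mul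
      (Complex.continuousAt_ofReal_cpow_const _ _ (Or.inr ht0.ne'))).continuousWithinAt
  have hint : IntegrableOn (deriv f) (Set.Icc (N : ℝ) M) := by
    refine (hcont.integrableOn_Icc).congr_fun ?_ measurableSet_Icc
    intro t ht
    have ht0 : (0:ℝ) < t := by linarith [ht.1]
    exact (hderiv t ht0).symm
  have habel := sum_mul_eq_sub_sub_integral_mul' (𝕜 := ℂ) g hNM hdiff hint
  have hsum : ∑ k ∈ Ioc N M, f k * g k = ∑ n ∈ Ioc N M, g n * (n : ℂ) ^ (-s) := by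
    refine Finset.sum_congr rfl fun k _ => ?_
    simp [hf, mul_comm]
  rw [hsum] at habel
  simp only [hIcc] at habel
  -- integrability of E part
  have hintG : IntegrableOn (fun t : ℝ => deriv f t * ∑ k ∈ Icc 1 ⌊t⌋₊, g k)
      (Set.Icc (N : ℝ) M) := integrableOn_mul_sum_Icc g (by positivity) hint
  have hintA : IntegrableOn (fun t : ℝ => deriv f t * (A * t)) (Set.Icc (N : ℝ) M) := by
    refine IntegrableOn.congr_fun (f := fun t : ℝ => (-s * (t : ℂ) ^ (-s - 1)) * (A * t)) ?_ ?_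
      measurableSet_Icc
    · exact (hcont.mul (by fun_prop)).integrableOn_Icc
    · intro t ht
      have ht0 : (0:ℝ) < t := by linarith [ht.1]
      simp only [hderiv t ht0]
  have hintE : IntegrableOn (fun t : ℝ => deriv f t * E t) (Set.Icc (N : ℝ) M) := by
    refine (hintG.sub hintA).congr_fun ?_ measurableSet_Icc
    intro t _
    simp only [hE, Pi.sub_apply, mul_sub]
  have hsplit : ∫ t in Set.Ioc (N : ℝ) M, deriv f t * ∑ k ∈ Icc 1 ⌊t⌋₊, g k =
      (∫ t in Set.Ioc (N : ℝ) M, deriv f t * (A * t)) +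
      ∫ t in Set.Ioc (N : ℝ) M, deriv f t * E t := by
    rw [← integral_add (hintA.mono_set Set.Ioc_subset_Icc_self)
      (hintE.mono_set Set.Ioc_subset_Icc_self)]
    refine integral_congr_ae (Eventually.of_forall fun t => ?_)
    simp only [hE, mul_sub]
    ring
  have hmain : ∫ t in Set.Ioc (N : ℝ) M, deriv f t * (A * t) =
      -s * A * (((M : ℂ) ^ (1 - s) - (N : ℂ) ^ (1 - s)) / (1 - s)) := by
    have h1 : ∫ t in Set.Ioc (N : ℝ) M, deriv f t * (A * t) =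
        ∫ t in Set.Ioc (N : ℝ) M, (-s * A) * (t : ℂ) ^ (-s) := by
      refine setIntegral_congr_fun measurableSet_Ioc fun t ht => ?_
      have ht0 : (0:ℝ) < t := by linarith [ht.1]
      simp only [hderiv t ht0]
      have : (t : ℂ) ^ (-s) = (t : ℂ) ^ (-s - 1) * t := by
        have ht' : (t : ℂ) ≠ 0 := by exact_mod_cast ht0.ne'
        rw [Complex.cpow_sub _ _ ht', Complex.cpow_one]
        field_simp
      rw [this]; ring
    rw [h1, integral_const_mul, ← intervalIntegral.integral_of_le hNMR, integral_cpow]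
    · congr 2
      · congr 1
        · congr 1; ring
        · congr 1; ring
      · ring
    · right
      refine ⟨fun h => hs1 ?_, ?_⟩
      · have := congrArg Neg.neg h; simpa using this
      · rw [Set.uIcc_of_le hNMR]
        intro h; linarith [h.1]
  have hEbound : ‖∫ t in Set.Ioc (N : ℝ) M, deriv f t * E t‖ ≤
      2 * ‖s‖ * C * (N : ℝ) ^ (1 / 2 - s.re) := by
    have h1 : ‖∫ t in Set.Ioc (N : ℝ) M, deriv f t * E t‖ ≤
        ∫ t in Set.Ioc (N : ℝ) M, (‖s‖ * C) * t ^ (-s.re - 1 / 2) := by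
      refine norm_integral_le_of_norm_le ?_ ?_
      · refine IntegrableOn.mono_set (t := Set.Icc (N : ℝ) M) ?_ Set.Ioc_subset_Icc_self
        refine ContinuousOn.integrableOn_Icc ?_
        refine continuousOn_const.mul ?_
        intro t ht
        have ht0 : (0:ℝ) < t := by linarith [ht.1]
        exact (Real.continuousAt_rpow_const _ _ (Or.inl ht0.ne')).continuousWithinAt
      · refine (ae_restrict_iff' measurableSet_Ioc).2 (Eventually.of_forall fun t ht => ?_)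
        have ht0 : (0:ℝ) < t := by linarith [ht.1]
        have ht1 : (1:ℝ) ≤ t := by linarith [ht.1]
        rw [hderiv t ht0, norm_mul, norm_mul, norm_neg,
          Complex.norm_cpow_eq_rpow_re_of_pos ht0]
        have h2 := hG t ht1
        have h3 : (-s - 1).re = -s.re - 1 := by simp
        rw [h3]
        calc ‖s‖ * t ^ (-s.re - 1) * ‖E t‖ ≤ ‖s‖ * t ^ (-s.re - 1) * (C * √t) := by
              gcongr
          _ = ‖s‖ * C * (t ^ (-s.re - 1) * t ^ (1 / 2 : ℝ)) := by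
              rw [Real.sqrt_eq_rpow]; ring
          _ = ‖s‖ * C * t ^ (-s.re - 1 / 2) := by
              rw [← Real.rpow_add ht0]; congr 2; ring
    refine h1.trans ?_
    rw [integral_const_mul, ← intervalIntegral.integral_of_le hNMR, integral_rpow]
    · have h4 : -s.re - 1 / 2 + 1 = 1 / 2 - s.re := by ring
      rw [h4]
      have h5 : 0 < s.re - 1 / 2 := by linarith
      have h6 : ((M : ℝ) ^ (1 / 2 - s.re) - (N : ℝ) ^ (1 / 2 - s.re)) / (1 / 2 - s.re)
          ≤ 2 * (N : ℝ) ^ (1 / 2 - s.re) := by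
        have h7 : (0:ℝ) ≤ (M : ℝ) ^ (1 / 2 - s.re) := by positivity
        have h8 : (0:ℝ) ≤ (N : ℝ) ^ (1 / 2 - s.re) := by positivity
        generalize (M : ℝ) ^ (1 / 2 - s.re) = a at h7 ⊢
        generalize (N : ℝ) ^ (1 / 2 - s.re) = b at h8 ⊢
        have h9 : (a - b) / (1 / 2 - s.re) = (b - a) / (s.re - 1 / 2) := by
          rw [← neg_sub s.re, div_neg, ← neg_div, neg_sub]
        rw [h9, div_le_iff₀ h5]
        nlinarith
      calc ‖s‖ * C * (((M : ℝ) ^ (1 / 2 - s.re) - (N : ℝ) ^ (1 / 2 - s.re)) / (1 / 2 - s.re))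
          ≤ ‖s‖ * C * (2 * (N : ℝ) ^ (1 / 2 - s.re)) := by gcongr
        _ = 2 * ‖s‖ * C * (N : ℝ) ^ (1 / 2 - s.re) := by ring
    · right
      refine ⟨by intro h; linarith, ?_⟩
      rw [Set.uIcc_of_le hNMR]
      intro h; linarith [h.1]
  -- boundary terms
  have hbN : ‖f N * E N‖ ≤ C * (N : ℝ) ^ (1 / 2 - s.re) := by
    have h0 : (0:ℝ) < N := by linarith
    rw [norm_mul, hf]
    simp only
    rw [Complex.norm_cpow_eq_rpow_re_of_pos h0]
    calc (N : ℝ) ^ (-s).re * ‖E N‖ ≤ (N : ℝ) ^ (-s).re * (C * √N) := by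
          have := hG N hNR
          gcongr
      _ = C * ((N : ℝ) ^ (-s).re * (N : ℝ) ^ (1 / 2 : ℝ)) := by rw [Real.sqrt_eq_rpow]; ring
      _ = C * (N : ℝ) ^ (1 / 2 - s.re) := by
          rw [← Real.rpow_add h0]; congr 2; simp; ring
  have hbM : ‖f M * E M‖ ≤ C * (N : ℝ) ^ (1 / 2 - s.re) := by
    have h0 : (0:ℝ) < M := by linarith
    have h00 : (0:ℝ) < N := by linarith
    rw [norm_mul, hf]
    simp only
    rw [Complex.norm_cpow_eq_rpow_re_of_pos h0]
    calc (M : ℝ) ^ (-s).re * ‖E M‖ ≤ (M : ℝ) ^ (-s).re * (C * √M) := by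
          have := hG M (by linarith)
          gcongr
      _ = C * ((M : ℝ) ^ (-s).re * (M : ℝ) ^ (1 / 2 : ℝ)) := by rw [Real.sqrt_eq_rpow]; ring
      _ = C * (M : ℝ) ^ (1 / 2 - s.re) := by
          rw [← Real.rpow_add h0]; congr 2; simp; ring
      _ ≤ C * (N : ℝ) ^ (1 / 2 - s.re) := by
          have : (M : ℝ) ^ (1 / 2 - s.re) ≤ (N : ℝ) ^ (1 / 2 - s.re) :=
            Real.rpow_le_rpow_of_nonpos h00 hNMR (by linarith)
          gcongr
  have hfl : ∀ n : ℕ, ∑ k ∈ Icc 1 n, g k = E n + A * n := by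
    intro n; simp [hE]
  rw [habel, hsplit, hmain, hfl, hfl]
  have hfM : f M * (A * M) = A * (M : ℂ) ^ (1 - s) := by
    have h0 : (M : ℂ) ≠ 0 := by
      have : (0:ℝ) < M := by linarith
      exact_mod_cast this.ne'
    have : (M : ℂ) ^ (1 - s) = (M : ℂ) * (M : ℂ) ^ (-s) := by
      rw [sub_eq_add_neg, Complex.cpow_add _ _ h0, Complex.cpow_one]
    rw [this, hf]; simp; ring
  have hfN : f N * (A * N) = A * (N : ℂ) ^ (1 - s) := by
    have h0 : (N : ℂ) ≠ 0 := by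
      have : (0:ℝ) < N := by linarith
      exact_mod_cast this.ne'
    have : (N : ℂ) ^ (1 - s) = (N : ℂ) * (N : ℂ) ^ (-s) := by
      rw [sub_eq_add_neg, Complex.cpow_add _ _ h0, Complex.cpow_one]
    rw [this, hf]; simp; ring
  have hfinal : f M * (E M + A * M) - f N * (E N + A * N) -
      (-s * A * (((M : ℂ) ^ (1 - s) - (N : ℂ) ^ (1 - s)) / (1 - s)) +
      ∫ t in Set.Ioc (N : ℝ) M, deriv f t * E t)
      - A * ((N : ℂ) ^ (1 - s) - (M : ℂ) ^ (1 - s)) / (s - 1)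
      = f M * E M - f N * E N - ∫ t in Set.Ioc (N : ℝ) M, deriv f t * E t := by
    rw [mul_add, mul_add, hfM, hfN]
    have : s - 1 ≠ 0 := sub_ne_zero.2 hs1
    field_simp
    ring
  rw [hfinal]
  calc ‖f M * E M - f N * E N - ∫ t in Set.Ioc (N : ℝ) M, deriv f t * E t‖
      ≤ ‖f M * E M‖ + ‖f N * E N‖ + ‖∫ t in Set.Ioc (N : ℝ) M, deriv f t * E t‖ := by
        refine (norm_sub_le _ _).trans ?_
        gcongr
        exact norm_sub_le _ _
    _ ≤ C * (N : ℝ) ^ (1 / 2 - s.re) + C * (N : ℝ) ^ (1 / 2 - s.re) +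
        2 * ‖s‖ * C * (N : ℝ) ^ (1 / 2 - s.re) := by gcongr
    _ = (2 + 2 * ‖s‖) * C * (N : ℝ) ^ (1 / 2 - s.re) := by ring

/-- Partial sums of a Dirichlet series whose coefficients have partial sums `A x + O(√x)`. -/
theorem abel_partial (g : ℕ → ℂ) (hg0 : g 0 = 0) (A : ℂ) (C : ℝ)
    (hG : ∀ x : ℝ, 1 ≤ x → ‖∑ n ∈ Icc 1 ⌊x⌋₊, g n - A * x‖ ≤ C * √x)
    (s : ℂ) (hs : 1 < s.re) (hsum : LSeriesSummable g s) (N : ℕ) (hN : 1 ≤ N) :
    ‖LSeries g s - ∑ n ∈ Icc 1 N, g n * (n : ℂ) ^ (-s) - A * (N : ℂ) ^ (1 - s) / (s - 1)‖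
      ≤ (2 + 2 * ‖s‖) * C * (N : ℝ) ^ (1 / 2 - s.re) := by
  have hterm : ∀ n : ℕ, LSeries.term g s n = g n * (n : ℂ) ^ (-s) := by
    intro n
    rcases eq_or_ne n 0 with rfl | hn
    · simp [hg0]
    · rw [LSeries.term_of_ne_zero hn, Complex.cpow_neg, div_eq_mul_inv]
  have h1 : Tendsto (fun M : ℕ => ∑ n ∈ Icc 1 M, g n * (n : ℂ) ^ (-s)) atTop
      (𝓝 (LSeries g s)) := by
    have h2 := (tendsto_add_atTop_iff_nat 1).2 hsum.hasSum.tendsto_sum_nat
    refine h2.congr fun M => ?_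
    rw [Nat.range_succ_eq_Icc_zero, ← insert_Icc_add_one_left_eq_Icc M.zero_le,
      sum_insert (by simp)]
    simp [hterm, hg0]
  have h2 : Tendsto (fun M : ℕ => (M : ℂ) ^ (1 - s)) atTop (𝓝 0) := by
    rw [tendsto_zero_iff_norm_tendsto_zero]
    have h3 : Tendsto (fun M : ℕ => (M : ℝ) ^ (-(s.re - 1))) atTop (𝓝 0) :=
      (tendsto_rpow_neg_atTop (by linarith)).comp tendsto_natCast_atTop_atTop
    refine h3.congr' ?_
    filter_upwards [eventually_gt_atTop 0] with M hM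
    rw [Complex.norm_natCast_cpow_of_pos hM]
    congr 1; simp
  have h4 : Tendsto (fun M : ℕ => ‖(∑ n ∈ Icc 1 M, g n * (n : ℂ) ^ (-s) -
      ∑ n ∈ Icc 1 N, g n * (n : ℂ) ^ (-s)) -
      A * ((N : ℂ) ^ (1 - s) - (M : ℂ) ^ (1 - s)) / (s - 1)‖) atTop
      (𝓝 ‖LSeries g s - ∑ n ∈ Icc 1 N, g n * (n : ℂ) ^ (-s) -
      A * ((N : ℂ) ^ (1 - s) - 0) / (s - 1)‖) := by
    refine Tendsto.norm ?_
    refine Tendsto.sub (h1.sub tendsto_const_nhds) ?_
    refine Tendsto.div_const ?_ _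
    exact (tendsto_const_nhds.sub h2).const_mul _
  rw [sub_zero] at h4
  refine le_of_tendsto h4 ?_
  filter_upwards [eventually_ge_atTop N] with M hM
  have h5 : ∑ n ∈ Icc 1 M, g n * (n : ℂ) ^ (-s) - ∑ n ∈ Icc 1 N, g n * (n : ℂ) ^ (-s)
      = ∑ n ∈ Ioc N M, g n * (n : ℂ) ^ (-s) := by
    have h6 : Icc 1 M = Icc 1 N ∪ Ioc N M := by
      ext n; simp only [mem_Icc, mem_union, mem_Ioc]; omega
    have h7 : Disjoint (Icc 1 N) (Ioc N M) := by
      rw [Finset.disjoint_left]; intro n; simp only [mem_Icc, mem_Ioc]; omega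
    rw [h6, sum_union h7]; ring
  rw [h5]
  exact abel_finite g hg0 A C hG s hs N M hN hM

/-- completely multiplicative bounded functions close at primes are close. -/
theorem close_of_close_primes {f g : ℕ → ℂ} (hf1 : f 1 = 1) (hg1 : g 1 = 1)
    (hf : ∀ m n, m ≠ 0 → n ≠ 0 → f (m * n) = f m * f n)
    (hg : ∀ m n, m ≠ 0 → n ≠ 0 → g (m * n) = g m * g n)
    (hfn : ∀ n, n ≠ 0 → ‖f n‖ ≤ 1) (hgn : ∀ n, n ≠ 0 → ‖g n‖ ≤ 1) {δ : ℝ} (hδ : 0 ≤ δ) {N : ℕ}
    (h : ∀ p, p.Prime → p ≤ N → ‖f p - g p‖ ≤ δ) :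
    ∀ n, n ≠ 0 → n ≤ N → ‖f n - g n‖ ≤ n * δ := by
  intro n
  induction n using Nat.strong_induction_on with
  | _ n ih =>
    intro hn0 hnN
    rcases eq_or_ne n 1 with rfl | hn1
    · rw [hf1, hg1, sub_self, norm_zero]; positivity
    · obtain ⟨p, hp, m, rfl⟩ := Nat.exists_prime_and_dvd hn1
      have hm0 : m ≠ 0 := by rintro rfl; simp at hn0
      have hmlt : m < p * m := by nlinarith [hp.two_le, Nat.pos_of_ne_zero hm0]
      have hple : p ≤ p * m := Nat.le_mul_of_pos_right p (Nat.pos_of_ne_zero hm0)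
      have h1 := ih m hmlt hm0 (hmlt.le.trans hnN)
      have h2 := h p hp (hple.trans hnN)
      rw [hf p m hp.ne_zero hm0, hg p m hp.ne_zero hm0]
      have h3 : f p * f m - g p * g m = (f p - g p) * f m + g p * (f m - g m) := by ring
      rw [h3]
      calc ‖(f p - g p) * f m + g p * (f m - g m)‖
          ≤ ‖f p - g p‖ * ‖f m‖ + ‖g p‖ * ‖f m - g m‖ := by
            refine (norm_add_le _ _).trans ?_
            rw [norm_mul, norm_mul]
        _ ≤ δ * 1 + 1 * (m * δ) := by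
            have := hfn m hm0
            have := hgn p hp.ne_zero
            gcongr
        _ ≤ (p * m : ℕ) * δ := by
            push_cast
            have h4 : (2:ℝ) ≤ p := by exact_mod_cast hp.two_le
            have h5 : (1:ℝ) ≤ m := by exact_mod_cast Nat.pos_of_ne_zero hm0
            have h6 : (1:ℝ) + m ≤ p * m := by nlinarith
            nlinarith [mul_le_mul_of_nonneg_right h6 hδ]

/-- minimum modulus principle -/
theorem exists_zero_of_small_center {f : ℂ → ℂ} (hf : Differentiable ℂ f) {c : ℂ} {r m : ℝ}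
    (hr : 0 < r) (hc : ‖f c‖ < m) (hm : ∀ w, ‖w - c‖ = r → m ≤ ‖f w‖) :
    ∃ w, ‖w - c‖ ≤ r ∧ f w = 0 := by
  by_contra hcon
  push Not at hcon
  have hm0 : 0 < m := (norm_nonneg _).trans_lt hc
  have hd : DiffContOnCl ℂ (fun w => (f w)⁻¹) (Metric.ball c r) := by
    refine DifferentiableOn.diffContOnCl fun w hw => ?_
    rw [closure_ball c hr.ne'] at hw
    rw [Metric.mem_closedBall, dist_eq_norm] at hw
    exact ((hf w).inv (hcon w hw)).differentiableWithinAt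
  have h1 := Complex.norm_le_of_forall_mem_frontier_norm_le (U := Metric.ball c r)
    Metric.isBounded_ball hd (C := m⁻¹) ?_ (z := c) (subset_closure (Metric.mem_ball_self hr))
  · rw [norm_inv] at h1
    have h2 : f c ≠ 0 := hcon c (by simp [hr.le])
    have h3 : 0 < ‖f c‖ := norm_pos_iff.2 h2
    have h4 := (inv_le_inv₀ h3 hm0).1 h1
    linarith
  · intro w hw
    rw [frontier_ball c hr.ne', mem_sphere_iff_norm] at hw
    rw [norm_inv]
    exact (inv_le_inv₀ (hm0.trans_le (hm w hw)) hm0).2 (hm w hw)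

/-- twisting: the partial sums of `χ` approximate those of any completely multiplicative `g` of
modulus one away from the primes dividing `k` (and zero at those primes). -/
theorem twist_approx {k : ℕ} [NeZero k] (χ : DirichletCharacter ℂ k) (g : ℕ →*₀ ℂ)
    (hg0 : ∀ p, p.Prime → p ∣ k → g p = 0) (hg1 : ∀ p, p.Prime → ¬ p ∣ k → ‖g p‖ = 1)
    (hgn : ∀ n, ‖g n‖ ≤ 1)
    (N : ℕ) {ε : ℝ} (hε : 0 < ε) :
    ∃ τ : ℝ, ∀ s : ℂ, 0 ≤ s.re →
      ‖∑ n ∈ Icc 1 N, χ n * (n : ℂ) ^ (-(s + τ * I)) - ∑ n ∈ Icc 1 N, g n * (n : ℂ) ^ (-s)‖ ≤ ε := by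
  classical
  set S : Finset ℕ := (Icc 1 N).filter (fun p => p.Prime ∧ ¬ p ∣ k) with hS
  set δ : ℝ := ε / (N ^ 2 + 1) with hδ
  have hδ0 : 0 < δ := by positivity
  have hχ1 : ∀ p : ℕ, p.Prime → ¬ p ∣ k → ‖χ p‖ = 1 := by
    intro p hp hpk
    have h1 : IsUnit (p : ZMod k) := by
      rw [ZMod.isUnit_iff_coprime]
      exact (Nat.Prime.coprime_iff_not_dvd hp).2 hpk
    obtain ⟨u, hu⟩ := h1
    rw [← hu]
    exact DirichletCharacter.unit_norm_eq_one χ u
  have hχ0 : ∀ p : ℕ, p.Prime → p ∣ k → χ p = 0 := by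
    intro p hp hpk
    apply MulChar.map_nonunit
    rw [ZMod.isUnit_iff_coprime, Nat.Prime.coprime_iff_not_dvd hp]
    exact fun h => h hpk
  obtain ⟨τ, hτ⟩ := kronecker S (fun p => -Real.log p)
    (fun a b hab => log_prime_indep S (fun p hp => by rw [hS, mem_filter] at hp; exact hp.2.1)
      a b hab) (fun p => g p * (starRingEnd ℂ) (χ p))
    (fun p hp => by
      rw [hS, mem_filter] at hp
      rw [norm_mul, RCLike.norm_conj, hg1 p hp.2.1 hp.2.2, hχ1 p hp.2.1 hp.2.2, one_mul]) δ hδ0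
  refine ⟨τ, fun s hs => ?_⟩
  set f : ℕ → ℂ := fun n => χ n * (n : ℂ) ^ (-(τ * I)) with hf
  have hnormpow : ∀ n : ℕ, n ≠ 0 → ‖(n : ℂ) ^ (-(τ * I))‖ = 1 := by
    intro n hn
    rw [Complex.norm_natCast_cpow_of_pos (Nat.pos_of_ne_zero hn)]
    simp
  have hclose := close_of_close_primes (f := f) (g := g) (δ := δ) (N := N) (by simp [hf])
    (map_one g)
    (fun m n hm hn => by
      simp only [hf]
      rw [Nat.cast_mul, Nat.cast_mul, map_mul, Complex.natCast_mul_natCast_cpow]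
      ring)
    (fun m n _ _ => map_mul g m n)
    (fun n hn => by
      simp only [hf]
      rw [norm_mul, hnormpow n hn, mul_one]
      exact DirichletCharacter.norm_le_one χ n)
    (fun n _ => hgn n) hδ0.le
    (fun p hp hpN => by
      by_cases hpk : p ∣ k
      · simp only [hf]
        rw [hχ0 p hp hpk, hg0 p hp hpk]; simp [hδ0.le]
      · have hpS : p ∈ S := by
          rw [hS, mem_filter, mem_Icc]; exact ⟨⟨hp.pos, hpN⟩, hp, hpk⟩
        have h1 := (hτ p hpS).le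
        have hp0 : (p : ℂ) ≠ 0 := by exact_mod_cast hp.ne_zero
        have h2 : (p : ℂ) ^ (-(τ * I)) = cexp (((-Real.log p : ℝ) : ℂ) * τ * I) := by
          rw [Complex.cpow_def_of_ne_zero hp0, ← Complex.natCast_log]
          congr 1; push_cast; ring
        have h3 : f p - g p = χ p * (cexp (((-Real.log p : ℝ) : ℂ) * τ * I) -
            g p * (starRingEnd ℂ) (χ p)) := by
          simp only [hf]
          rw [h2, mul_sub]
          congr 1
          have h4 : χ p * (starRingEnd ℂ) (χ p) = 1 := by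
            rw [Complex.mul_conj', hχ1 p hp hpk]; norm_num
          linear_combination (-(g p)) * h4
        rw [h3, norm_mul, hχ1 p hp hpk, one_mul]
        exact h1)
  rw [← Finset.sum_sub_distrib]
  calc ‖∑ n ∈ Icc 1 N, (χ n * (n : ℂ) ^ (-(s + τ * I)) - g n * (n : ℂ) ^ (-s))‖
      ≤ ∑ n ∈ Icc 1 N, ‖χ n * (n : ℂ) ^ (-(s + τ * I)) - g n * (n : ℂ) ^ (-s)‖ := norm_sum_le _ _
    _ ≤ ∑ n ∈ Icc 1 N, (N : ℝ) * δ := by
        refine Finset.sum_le_sum fun n hn => ?_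
        rw [mem_Icc] at hn
        have hn0 : n ≠ 0 := by omega
        have hnC : (n : ℂ) ≠ 0 := by exact_mod_cast hn0
        have h1 : χ n * (n : ℂ) ^ (-(s + τ * I)) - g n * (n : ℂ) ^ (-s) =
            (f n - g n) * (n : ℂ) ^ (-s) := by
          simp only [hf]
          rw [neg_add, Complex.cpow_add _ _ hnC]; ring
        rw [h1, norm_mul]
        have h2 : ‖(n : ℂ) ^ (-s)‖ ≤ 1 := by
          rw [Complex.norm_natCast_cpow_of_pos (Nat.pos_of_ne_zero hn0)]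
          exact Real.rpow_le_one_of_one_le_of_nonpos (by exact_mod_cast hn.1) (by simpa using hs)
        have h3 := hclose n hn0 hn.2
        have h4 : (n : ℝ) ≤ N := by exact_mod_cast hn.2
        calc ‖f n - g n‖ * ‖(n : ℂ) ^ (-s)‖ ≤ (n * δ) * 1 := by gcongr
          _ ≤ N * δ := by rw [mul_one]; gcongr
    _ = N ^ 2 * δ := by simp; ring
    _ ≤ ε := by
        rw [hδ, ← mul_div_assoc, div_le_iff₀ (by positivity)]
        nlinarith

theorem one_sub_exp_lower {v : ℂ} (hv : ‖v‖ = 1 / 2) : 1 / 4 ≤ ‖1 - cexp (-v)‖ := by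
  have h1 := Complex.norm_exp_sub_one_sub_id_le (x := -v) (by rw [norm_neg, hv]; norm_num)
  rw [norm_neg, hv] at h1
  have h2 : v = (1 - cexp (-v)) + (cexp (-v) - 1 - (-v)) := by ring
  have h3 : ‖v‖ ≤ ‖1 - cexp (-v)‖ + ‖cexp (-v) - 1 - (-v)‖ := by
    nth_rewrite 1 [h2]; exact norm_add_le _ _
  rw [hv] at h3
  linarith

theorem main {k : ℕ} [NeZero k] (C : ℝ) (hC : 0 ≤ C) : ∃ N₀ : ℕ, ∀ N : ℕ, N₀ ≤ N →
    ∀ χ : DirichletCharacter ℂ k, ∃ s : ℂ, 1 + C / Real.log N < s.re ∧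
      ∑ n ∈ Icc 1 N, χ n * (n : ℂ) ^ (-s) = 0 := by
  classical
  obtain ⟨t, S, z, ht1, ht2, hSp, hzS, hzK, hzK1, hineq⟩ := exists_twist k.primeFactors
    (fun p hp => Nat.prime_of_mem_primeFactors hp) (C + 2)
  have hzle : ∀ p, ‖z p‖ ≤ 1 := fun p => by
    by_cases h : p ∈ k.primeFactors
    · rw [hzK p h]; simp
    · exact (hzK1 p h).le
  set s₀ : ℂ := 1 + t * I with hs₀
  have hs₀re : s₀.re = 1 := by simp [hs₀]
  have ht0 : (0:ℝ) < t := by linarith
  have htC : (t : ℂ) ≠ 0 := by exact_mod_cast ht0.ne'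
  have hs₀1 : s₀ - 1 = t * I := by rw [hs₀]; ring
  have hs₀ne : s₀ ≠ 1 := by
    intro h
    have h1 : s₀ - 1 = 0 := by rw [h]; simp
    rw [hs₀1] at h1
    rcases mul_eq_zero.1 h1 with h2 | h2
    · exact htC h2
    · exact I_ne_zero h2
  set A : ℂ := meanz S z with hA
  set F : ℂ → ℂ := fun s => riemannZeta s *
    ∏ p ∈ S, (1 - (p : ℂ) ^ (-s)) / (1 - z p * (p : ℂ) ^ (-s)) with hF
  set B : ℂ := F s₀ with hB
  have hpow_ne : ∀ p ∈ S, ∀ s : ℂ, 0 < s.re → (1 - (p : ℂ) ^ (-s)) ≠ 0 := by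
    intro p hp s hs
    have := one_sub_mul_cpow_ne_zero (w := 1) (by simp) (hSp p hp).two_le hs
    simpa using this
  have hA0 : A ≠ 0 := by
    rw [hA]; unfold meanz
    refine Finset.prod_ne_zero_iff.2 fun p hp => div_ne_zero ?_ ?_
    · exact one_sub_div_ne_zero (by simp) (hSp p hp).two_le
    · exact one_sub_div_ne_zero (hzle p) (hSp p hp).two_le
  have hB0 : B ≠ 0 := by
    rw [hB, hF]
    refine mul_ne_zero (riemannZeta_ne_zero_of_one_le_re (by rw [hs₀re])) ?_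
    refine Finset.prod_ne_zero_iff.2 fun p hp => div_ne_zero ?_ ?_
    · exact hpow_ne p hp s₀ (by rw [hs₀re]; norm_num)
    · exact one_sub_mul_cpow_ne_zero (hzle p) (hSp p hp).two_le (by rw [hs₀re]; norm_num)
  have hBpos : 0 < ‖B‖ := norm_pos_iff.2 hB0
  have hFL : ∀ s : ℂ, 1 < s.re → LSeries (cmul z) s = F s := by
    intro s hs
    have h1 := lseries_cmul S z hSp hzS hzle s hs
    have h2 : ∏ p ∈ S, (1 - z p * (p : ℂ) ^ (-s)) ≠ 0 :=
      Finset.prod_ne_zero_iff.2 fun p hp =>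
        one_sub_mul_cpow_ne_zero (hzle p) (hSp p hp).two_le (by linarith)
    simp only [hF]
    rw [Finset.prod_div_distrib, ← mul_div_assoc, eq_div_iff h2]
    exact h1
  have hFc : ContinuousAt F s₀ := by
    refine ContinuousAt.mul (differentiableAt_riemannZeta hs₀ne).continuousAt ?_
    refine tendsto_finsetProd _ fun p hp => ?_
    have hp0 : (p : ℂ) ≠ 0 := by exact_mod_cast (hSp p hp).ne_zero
    have hc : ContinuousAt (fun s : ℂ => (p : ℂ) ^ (-s)) s₀ := by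
      have : Continuous fun s : ℂ => (p : ℂ) ^ (-s) :=
        Continuous.const_cpow (by fun_prop) (Or.inl hp0)
      exact this.continuousAt
    refine ContinuousAt.div (continuousAt_const.sub hc)
      (continuousAt_const.sub (continuousAt_const.mul hc)) ?_
    exact one_sub_mul_cpow_ne_zero (hzle p) (hSp p hp).two_le (by rw [hs₀re]; norm_num)
  obtain ⟨C₀, hC₀, hsumz⟩ := sumz_asymp S z hSp hzS hzle
  have hG : ∀ x : ℝ, 1 ≤ x → ‖∑ n ∈ Icc 1 ⌊x⌋₊, cmul z n - A * x‖ ≤ C₀ * √x :=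
    fun x hx => hsumz x (by linarith)
  -- the zero of the limit function
  set q : ℝ := ‖(t : ℂ) * B‖ / ‖A‖ with hq
  have hApos : 0 < ‖A‖ := norm_pos_iff.2 hA0
  have hq0 : 0 < q := by
    rw [hq]; refine div_pos (norm_pos_iff.2 (mul_ne_zero htC hB0)) hApos
  have hq1 : q ≤ Real.exp (-(C + 2)) := by
    rw [hq, div_le_iff₀ hApos]; exact hineq
  have hlogq : Real.log q ≤ -(C + 2) := by
    rw [← Real.log_exp (-(C + 2))]
    exact Real.log_le_log hq0 hq1
  -- uniform radius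
  set R : ℝ := -Real.log q + Real.pi + 1 with hR
  have hR0 : 0 < R := by rw [hR]; linarith [Real.pi_pos]
  -- small parameters
  set ε : ℝ := ‖B‖ / 96 with hε
  have hε0 : 0 < ε := by positivity
  -- continuity gives a radius δ
  obtain ⟨δ, hδ0, hδ⟩ : ∃ δ : ℝ, 0 < δ ∧ ∀ s : ℂ, ‖s - s₀‖ < δ →
      ‖F s - B‖ < ε ∧ ‖A / (s - 1) - A / (s₀ - 1)‖ < ε := by
    obtain ⟨δ1, hδ1, h1⟩ := Metric.continuousAt_iff.1 hFc ε hε0
    have hc2 : ContinuousAt (fun s : ℂ => A / (s - 1)) s₀ := by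
      refine ContinuousAt.div continuousAt_const (by fun_prop) (sub_ne_zero.2 hs₀ne)
    obtain ⟨δ2, hδ2, h2⟩ := Metric.continuousAt_iff.1 hc2 ε hε0
    refine ⟨min δ1 δ2, lt_min hδ1 hδ2, fun s hs => ⟨?_, ?_⟩⟩
    · have := h1 (x := s) (by rw [dist_eq_norm]; exact hs.trans_le (min_le_left _ _))
      rwa [dist_eq_norm] at this
    · have := h2 (x := s) (by rw [dist_eq_norm]; exact hs.trans_le (min_le_right _ _))
      rwa [dist_eq_norm] at this
  -- choice of N₀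
  have hlim1 : Tendsto (fun N : ℕ => Real.log N) atTop atTop :=
    Real.tendsto_log_atTop.comp tendsto_natCast_atTop_atTop
  have hlim2 : Tendsto (fun N : ℕ => (2 + 2 * (‖s₀‖ + δ)) * C₀ * (N : ℝ) ^ (-(1 / 2 : ℝ))) atTop
      (𝓝 0) := by
    have h1 : Tendsto (fun N : ℕ => (N : ℝ) ^ (-(1 / 2 : ℝ))) atTop (𝓝 0) :=
      (tendsto_rpow_neg_atTop (by norm_num)).comp tendsto_natCast_atTop_atTop
    simpa using h1.const_mul ((2 + 2 * (‖s₀‖ + δ)) * C₀)
  obtain ⟨N₀, hN₀⟩ : ∃ N₀ : ℕ, ∀ N : ℕ, N₀ ≤ N → 1 ≤ N ∧ 0 < Real.log N ∧ R / Real.log N < δ ∧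
      (2 + 2 * (‖s₀‖ + δ)) * C₀ * (N : ℝ) ^ (-(1 / 2 : ℝ)) < ε := by
    have h1 := hlim1.eventually_gt_atTop (max 0 (R / δ))
    have h2 := hlim2.eventually (gt_mem_nhds hε0)
    obtain ⟨N₀, h3⟩ := eventually_atTop.1 (((eventually_ge_atTop 1).and h1).and h2)
    refine ⟨N₀, fun N hN => ?_⟩
    obtain ⟨⟨h4, h5⟩, h6⟩ := h3 N hN
    have h7 : 0 < Real.log N := lt_of_le_of_lt (le_max_left _ _) h5
    have h8 : R / δ < Real.log N := lt_of_le_of_lt (le_max_right _ _) h5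
    refine ⟨h4, h7, ?_, h6⟩
    rw [div_lt_iff₀ hδ0] at h8
    rw [div_lt_iff₀ h7]; linarith
  refine ⟨N₀, fun N hN χ => ?_⟩
  obtain ⟨hN1, hlogN, hRδ, herr⟩ := hN₀ N hN
  set L : ℝ := Real.log N with hL
  have hLC : (L : ℂ) ≠ 0 := by exact_mod_cast hlogN.ne'
  have hNC : (N : ℂ) ≠ 0 := by exact_mod_cast (by omega : N ≠ 0)
  have hNR : (1:ℝ) ≤ N := by exact_mod_cast hN1
  -- the limit function
  set G : ℂ → ℂ := fun w => B - A / (s₀ - 1) * cexp (-(t * L) * I - w) with hGdef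
  have hcompare : ∀ w : ℂ, 0 < w.re → ‖w‖ ≤ R →
      ‖∑ n ∈ Icc 1 N, cmul z n * (n : ℂ) ^ (-(s₀ + w / L)) - G w‖ ≤ 3 * ε := by
    intro w hw hwR
    set s : ℂ := s₀ + w / L with hs
    have hsre : s.re = 1 + w.re / L := by
      rw [hs, Complex.add_re, hs₀re, Complex.div_ofReal_re]
    have hs1 : 1 < s.re := by rw [hsre]; have : 0 < w.re / L := by positivity
                              linarith
    have hsδ : ‖s - s₀‖ < δ := by
      have h1 : s - s₀ = w / L := by rw [hs]; ring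
      rw [h1, norm_div, Complex.norm_real, Real.norm_of_nonneg hlogN.le]
      refine lt_of_le_of_lt ?_ hRδ
      gcongr
    obtain ⟨h1, h2⟩ := hδ s hsδ
    have h3 := abel_partial (cmul z) (map_zero _) A C₀ hG s hs1 (cmul_lseriesSummable hzle hs1) N hN1
    rw [hFL s hs1] at h3
    have h4 : (N : ℂ) ^ (1 - s) = cexp (-(t * L) * I - w) := by
      rw [Complex.cpow_def_of_ne_zero hNC, ← Complex.natCast_log]
      congr 1
      have h5 : (1 - s) = -(t * I) - w / L := by rw [hs, hs₀]; ring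
      rw [h5, ← hL]
      field_simp
    have h6 : ‖cexp (-(t * L) * I - w)‖ ≤ 1 := by
      rw [Complex.norm_exp]
      have h7 : (-(t * L) * I - w : ℂ).re = -w.re := by simp
      rw [h7]
      exact Real.exp_le_one_iff.2 (by linarith)
    have h8 : (2 + 2 * ‖s‖) * C₀ * (N : ℝ) ^ (1 / 2 - s.re) ≤ ε := by
      refine le_trans ?_ herr.le
      have h9 : ‖s‖ ≤ ‖s₀‖ + δ := by
        calc ‖s‖ = ‖s₀ + (s - s₀)‖ := by congr 1; ring
          _ ≤ ‖s₀‖ + ‖s - s₀‖ := norm_add_le _ _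
          _ ≤ ‖s₀‖ + δ := by gcongr
      have h10 : (N : ℝ) ^ (1 / 2 - s.re) ≤ (N : ℝ) ^ (-(1 / 2 : ℝ)) :=
        Real.rpow_le_rpow_of_exponent_le hNR (by linarith)
      gcongr
    rw [h4] at h3
    have h11 : ∑ n ∈ Icc 1 N, cmul z n * (n : ℂ) ^ (-s) - G w =
        -(F s - ∑ n ∈ Icc 1 N, cmul z n * (n : ℂ) ^ (-s) -
          A * cexp (-(t * L) * I - w) / (s - 1)) + (F s - B) -
        (A / (s - 1) - A / (s₀ - 1)) * cexp (-(t * L) * I - w) := by
      simp only [hGdef]; ring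
    rw [h11]
    calc _ ≤ ‖-(F s - ∑ n ∈ Icc 1 N, cmul z n * (n : ℂ) ^ (-s) -
          A * cexp (-(t * L) * I - w) / (s - 1))‖ + ‖F s - B‖ +
          ‖(A / (s - 1) - A / (s₀ - 1)) * cexp (-(t * L) * I - w)‖ := by
          refine (norm_sub_le _ _).trans ?_
          gcongr
          exact norm_add_le _ _
      _ ≤ ε + ε + ε * 1 := by
          rw [norm_neg, norm_mul]
          gcongr
          exact h3.trans h8
      _ = 3 * ε := by ring
  -- twisting
  obtain ⟨τ, hτ⟩ := twist_approx χ (cmul z)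
    (fun p hp hpk => by rw [cmul_prime hp]; exact hzK p (Nat.mem_primeFactors.2 ⟨hp, hpk, NeZero.ne k⟩))
    (fun p hp hpk => by
      rw [cmul_prime hp]; exact hzK1 p (fun h => hpk (Nat.dvd_of_mem_primeFactors h)))
    (cmul_norm_le fun p _ => hzle p) N hε0
  -- the zero of G
  set ζ₀ : ℂ := (t * I) * B * cexp (t * L * I) / A with hζ₀
  have hζ₀ne : ζ₀ ≠ 0 := by
    rw [hζ₀]
    exact div_ne_zero (mul_ne_zero (mul_ne_zero (mul_ne_zero htC I_ne_zero) hB0)
      (Complex.exp_ne_zero _)) hA0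
  have hζ₀norm : ‖ζ₀‖ = q := by
    have h0 : ‖cexp (t * L * I)‖ = 1 := by
      have h1 : (t * L * I : ℂ) = ((t * L : ℝ) : ℂ) * I := by push_cast; ring
      rw [h1, Complex.norm_exp_ofReal_mul_I]
    rw [hζ₀, hq, norm_div, norm_mul ((t : ℂ) * I * B), norm_mul ((t : ℂ) * I) B,
      norm_mul (t : ℂ) I, Complex.norm_I, mul_one, h0, mul_one, norm_mul (t : ℂ) B]
  set w₀ : ℂ := -Complex.log ζ₀ with hw₀
  have hw₀exp : cexp (-w₀) = ζ₀ := by rw [hw₀, neg_neg, Complex.exp_log hζ₀ne]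
  have hw₀re : w₀.re = -Real.log q := by
    rw [hw₀, Complex.neg_re, Complex.log_re, hζ₀norm]
  have hw₀norm : ‖w₀‖ ≤ -Real.log q + Real.pi := by
    have h1 : ‖w₀‖ ≤ |w₀.re| + |w₀.im| := Complex.norm_le_abs_re_add_abs_im w₀
    have h2 : |w₀.im| ≤ Real.pi := by
      rw [hw₀, Complex.neg_im, abs_neg, Complex.log_im]
      exact Complex.abs_arg_le_pi _
    have h3 : |w₀.re| = -Real.log q := by
      rw [hw₀re, abs_of_nonneg]; linarith
    linarith
  have hGw : ∀ w : ℂ, G w = B * (1 - cexp (-(w - w₀))) := by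
    intro w
    have h1 : cexp (-(t * L) * I - w) = cexp (-(t * L * I)) * (cexp (-(w - w₀)) * cexp (-w₀)) := by
      rw [← Complex.exp_add, ← Complex.exp_add]; congr 1; ring
    have h2 : cexp (t * L * I) * cexp (-(t * L * I)) = 1 := by
      rw [← Complex.exp_add]; simp
    simp only [hGdef]
    rw [h1, hw₀exp, hζ₀, hs₀1]
    have h3 : (t * I : ℂ) ≠ 0 := mul_ne_zero htC I_ne_zero
    have h4 : A / (t * I) * (cexp (-(t * L * I)) * (cexp (-(w - w₀)) *
        ((t * I) * B * cexp (t * L * I) / A))) =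
        B * cexp (-(w - w₀)) * (cexp (t * L * I) * cexp (-(t * L * I))) := by
      field_simp
    rw [h4, h2]; ring
  -- the function
  set H : ℂ → ℂ := fun w => ∑ n ∈ Icc 1 N, χ n * (n : ℂ) ^ (-((s₀ + w / L) + τ * I)) with hH
  have hHd : Differentiable ℂ H := by
    refine Differentiable.fun_sum fun n hn => ?_
    rw [mem_Icc] at hn
    have hn0 : (n : ℂ) ≠ 0 := by exact_mod_cast (by omega : n ≠ 0)
    refine Differentiable.const_mul ?_ _
    refine Differentiable.const_cpow (by fun_prop) (Or.inl hn0)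
  have hdisc : ∀ w : ℂ, ‖w - w₀‖ ≤ 1 / 2 → C < w.re ∧ ‖w‖ ≤ R := by
    intro w hw
    have h1 : |(w - w₀).re| ≤ 1 / 2 := (Complex.abs_re_le_norm _).trans hw
    rw [Complex.sub_re, hw₀re] at h1
    have h2 := (abs_le.1 h1).1
    refine ⟨by linarith, ?_⟩
    calc ‖w‖ = ‖w₀ + (w - w₀)‖ := by congr 1; ring
      _ ≤ ‖w₀‖ + ‖w - w₀‖ := norm_add_le _ _
      _ ≤ R := by rw [hR]; linarith
  have hHG : ∀ w : ℂ, ‖w - w₀‖ ≤ 1 / 2 → ‖H w - G w‖ ≤ 4 * ε := by
    intro w hw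
    obtain ⟨h1, h2⟩ := hdisc w hw
    have h3 : 0 < w.re := by linarith
    have h4 := hcompare w h3 h2
    have h5 := hτ (s₀ + w / L) (by
      rw [Complex.add_re, hs₀re, Complex.div_ofReal_re]
      have : 0 < w.re / L := by positivity
      linarith)
    have h6 : H w - G w = (∑ n ∈ Icc 1 N, χ n * (n : ℂ) ^ (-((s₀ + w / L) + τ * I)) -
        ∑ n ∈ Icc 1 N, cmul z n * (n : ℂ) ^ (-(s₀ + w / L))) +
        (∑ n ∈ Icc 1 N, cmul z n * (n : ℂ) ^ (-(s₀ + w / L)) - G w) := by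
      simp only [hH]; ring
    rw [h6]
    refine (norm_add_le _ _).trans ?_
    linarith
  obtain ⟨w, hw1, hw2⟩ := exists_zero_of_small_center hHd (c := w₀) (r := 1 / 2) (m := ‖B‖ / 5)
    (by norm_num)
    (by
      have h1 := hHG w₀ (by simp)
      have h2 : G w₀ = 0 := by rw [hGw]; simp
      rw [h2, sub_zero] at h1
      rw [hε] at h1
      linarith)
    (by
      intro w hw
      have h1 := hHG w hw.le
      have h2 : ‖B‖ / 4 ≤ ‖G w‖ := by
        rw [hGw, norm_mul B]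
        have := one_sub_exp_lower hw
        nlinarith
      have h3 : ‖G w‖ ≤ ‖H w‖ + ‖H w - G w‖ := by
        have : G w = H w - (H w - G w) := by ring
        nth_rewrite 1 [this]
        exact norm_sub_le _ _
      rw [hε] at h1
      linarith)
  refine ⟨(s₀ + w / L) + τ * I, ?_, hw2⟩
  obtain ⟨h1, -⟩ := hdisc w hw1
  have h2 : ((s₀ + w / L) + τ * I).re = 1 + w.re / L := by
    rw [Complex.add_re, Complex.add_re, hs₀re, Complex.div_ofReal_re]
    simp
  rw [h2]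
  gcongr

end Pool.Agent.LibTuran
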